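import Mathlib

/-!
# The Hausdorff dimension of the zero set of a differentiable map
-/

set_option autoImplicit false

open MeasureTheory Set Filter Topology
open scoped ENNReal NNReal

namespace Pool.Agent.T2H44.IV

variable {Z F : Type*} [NormedAddCommGroup Z] [NormedSpace ℝ Z] [FiniteDimensional ℝ Z]
  [NormedAddCommGroup F] [NormedSpace ℝ F]

/-- A linear map with a small kernel becomes injective, uniformly, together with one of countably
many linear maps to `ℝ^ν`. -/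
theorem exists_compl (L : Z →L[ℝ] F) {ν : ℕ}
    (hL : Module.finrank ℝ (LinearMap.ker (L : Z →ₗ[ℝ] F)) ≤ ν)
    (P : ℕ → Z →L[ℝ] (Fin ν → ℝ)) (hP : DenseRange P) :
    ∃ i j : ℕ, ∀ w, (1 / ((j : ℝ) + 1)) * ‖w‖ ≤ ‖L w‖ + ‖P i w‖ := by
  classical
  obtain ⟨Q, hQ⟩ : ∃ Q : Z →ₗ[ℝ] (Fin ν → ℝ), ∀ w ∈ LinearMap.ker (L : Z →ₗ[ℝ] F), Q w = 0 → w = 0 := by
    obtain ⟨K', hK'⟩ := (LinearMap.ker (L : Z →ₗ[ℝ] F)).exists_isCompl
    have h1 : ∃ f : LinearMap.ker (L : Z →ₗ[ℝ] F) →ₗ[ℝ] (Fin ν → ℝ), Function.Injective f := by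
      obtain ⟨n, hn⟩ : ∃ n, n = Module.finrank ℝ (LinearMap.ker (L : Z →ₗ[ℝ] F)) := ⟨_, rfl⟩
      obtain ⟨e⟩ : Nonempty (LinearMap.ker (L : Z →ₗ[ℝ] F) ≃ₗ[ℝ] (Fin n → ℝ)) := by
        apply FiniteDimensional.nonempty_linearEquiv_of_finrank_eq
        rw [Module.finrank_fintype_fun_eq_card, Fintype.card_fin, hn]
      refine ⟨LinearMap.pi fun j => if h : j.1 < n then
        (LinearMap.proj (⟨j.1, h⟩ : Fin n)) ∘ₗ e.toLinearMap else 0, ?_⟩
      rw [← LinearMap.ker_eq_bot, LinearMap.ker_eq_bot']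
      intro w hw
      apply e.injective
      rw [map_zero]
      funext i
      have h1 := congrFun hw ⟨i.1, by have := i.2; omega⟩
      simpa [LinearMap.pi_apply, i.2] using h1
    obtain ⟨f, hf⟩ := h1
    refine ⟨f ∘ₗ Submodule.projectionOnto _ _ hK', fun w hw h0 => ?_⟩
    rw [LinearMap.comp_apply] at h0
    have h2 := hf (h0.trans (map_zero f).symm)
    have h3 := Submodule.projectionOnto_apply_left hK' ⟨w, hw⟩
    rw [h2] at h3
    exact congrArg Subtype.val h3.symm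
  obtain ⟨c, hc, hcQ⟩ : ∃ c > 0, ∀ w : Z, c * ‖w‖ ≤ ‖L w‖ + ‖Q w‖ := by
    have hinj : LinearMap.ker (LinearMap.prod (L : Z →ₗ[ℝ] F) Q) = ⊥ := by
      rw [LinearMap.ker_eq_bot']
      intro w hw
      have h1 : L w = 0 := congrArg Prod.fst hw
      have h2 : Q w = 0 := congrArg Prod.snd hw
      exact hQ w (LinearMap.mem_ker.2 h1) h2
    obtain ⟨K, hK, hK'⟩ := (LinearMap.prod (L : Z →ₗ[ℝ] F) Q).exists_antilipschitzWith hinj
    refine ⟨(K : ℝ)⁻¹, inv_pos.2 (NNReal.coe_pos.2 hK), fun w => ?_⟩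
    have h1 := hK'.le_mul_dist w 0
    rw [map_zero, dist_zero_right, dist_zero_right] at h1
    have h2 : ‖(LinearMap.prod (L : Z →ₗ[ℝ] F) Q) w‖ ≤ ‖L w‖ + ‖Q w‖ := by
      change max ‖L w‖ ‖Q w‖ ≤ _
      exact max_le (le_add_of_nonneg_right (norm_nonneg _)) (le_add_of_nonneg_left (norm_nonneg _))
    rw [inv_mul_le_iff₀ (NNReal.coe_pos.2 hK)]
    exact h1.trans (mul_le_mul_of_nonneg_left h2 K.coe_nonneg)
  obtain ⟨i, hi⟩ := hP.exists_dist_lt (LinearMap.toContinuousLinearMap Q) (half_pos hc)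
  obtain ⟨j, hj⟩ := exists_nat_one_div_lt (half_pos hc)
  refine ⟨i, j, fun w => ?_⟩
  have h1 := hcQ w
  have h2 : ‖Q w‖ ≤ ‖P i w‖ + c / 2 * ‖w‖ := by
    have h3 : Q w = P i w + (LinearMap.toContinuousLinearMap Q - P i) w := by
      simp
    have h4 : ‖(LinearMap.toContinuousLinearMap Q - P i) w‖ ≤ c / 2 * ‖w‖ := by
      refine (ContinuousLinearMap.le_opNorm _ _).trans ?_
      rw [dist_eq_norm] at hi
      exact mul_le_mul_of_nonneg_right hi.le (norm_nonneg _)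
    rw [h3]
    exact (norm_add_le _ _).trans (add_le_add le_rfl h4)
  have h5 := mul_le_mul_of_nonneg_right hj.le (norm_nonneg w)
  linarith

/-- Let `f` vanish on `A` and be differentiable at the points of `A`. The points of `A` at which the
kernel of the derivative has dimension at most `ν` form a set of Hausdorff dimension at most `ν`. -/
theorem dimH_ker {A : Set Z} {f : Z → F} (hf : ∀ z ∈ A, DifferentiableAt ℝ f z)
    (h0 : ∀ z ∈ A, f z = 0) (ν : ℕ) :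
    dimH {z | z ∈ A ∧ Module.finrank ℝ (LinearMap.ker (fderiv ℝ f z : Z →ₗ[ℝ] F)) ≤ ν} ≤ ν := by
  classical
  obtain ⟨P, hP⟩ : ∃ P : ℕ → Z →L[ℝ] (Fin ν → ℝ), DenseRange P :=
    ⟨TopologicalSpace.denseSeq _, TopologicalSpace.denseRange_denseSeq _⟩
  obtain ⟨c, hc⟩ : ∃ c : ℕ → Z, DenseRange c :=
    ⟨TopologicalSpace.denseSeq _, TopologicalSpace.denseRange_denseSeq _⟩
  obtain ⟨S, hS⟩ : ∃ S : ℕ × ℕ × ℕ × ℕ → Set Z, S = fun t => {z | z ∈ A ∧
      (∀ w, (1 / ((t.2.1 : ℝ) + 1)) * ‖w‖ ≤ ‖fderiv ℝ f z w‖ + ‖P t.1 w‖) ∧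
      (∀ y, dist y z < 1 / ((t.2.2.1 : ℝ) + 1) →
        ‖f y - f z - fderiv ℝ f z (y - z)‖ ≤ (1 / ((t.2.1 : ℝ) + 1)) / 2 * ‖y - z‖) ∧
      dist z (c t.2.2.2) < 1 / ((t.2.2.1 : ℝ) + 1) / 2} := ⟨_, rfl⟩
  have hcov : {z | z ∈ A ∧ Module.finrank ℝ (LinearMap.ker (fderiv ℝ f z : Z →ₗ[ℝ] F)) ≤ ν} ⊆
      ⋃ t, S t := by
    rintro z ⟨hzA, hz⟩
    obtain ⟨i, j, hij⟩ := exists_compl (fderiv ℝ f z) hz P hP
    have hj : 0 < (1 / ((j : ℝ) + 1)) / 2 := by positivity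
    have h1 := (hf z hzA).hasFDerivAt.isLittleO.def hj
    obtain ⟨ε, hε, hε'⟩ := Metric.eventually_nhds_iff.1 h1
    obtain ⟨k, hk⟩ := exists_nat_one_div_lt hε
    have hk0 : 0 < 1 / ((k : ℝ) + 1) / 2 := by positivity
    obtain ⟨l, hl⟩ := hc.exists_dist_lt z hk0
    refine mem_iUnion.2 ⟨(i, j, k, l), ?_⟩
    rw [hS]
    exact ⟨hzA, hij, fun y hy => hε' (hy.trans hk), hl⟩
  refine (dimH_mono hcov).trans ?_
  rw [dimH_iUnion]
  refine iSup_le fun t => ?_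
  obtain ⟨i, j, k, l⟩ := t
  have hc0 : 0 < (1 / ((j : ℝ) + 1)) / 2 := by positivity
  obtain ⟨K, hK⟩ : ∃ K : ℝ≥0, (K : ℝ) = ((1 / ((j : ℝ) + 1)) / 2)⁻¹ :=
    ⟨⟨((1 / ((j : ℝ) + 1)) / 2)⁻¹, (inv_pos.2 hc0).le⟩, rfl⟩
  have hanti : AntilipschitzWith K (fun z : S (i, j, k, l) => P i (z : Z)) := by
    refine AntilipschitzWith.of_le_mul_dist fun y z => ?_
    obtain ⟨y, hy⟩ := y
    obtain ⟨z, hz⟩ := z
    change dist y z ≤ K * dist (P i y) (P i z)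
    rw [hS] at hy hz
    obtain ⟨yA, -, -, y3⟩ := hy
    obtain ⟨zA, z1, z2, z3⟩ := hz
    simp only at y3 z1 z2 z3
    have hd : dist y z < 1 / ((k : ℝ) + 1) := by
      have h1 := dist_triangle_right y z (c l)
      linarith
    have h1 := z2 y hd
    rw [h0 y yA, h0 z zA, sub_zero, zero_sub, norm_neg] at h1
    have h2 := z1 (y - z)
    have h3 : (1 / ((j : ℝ) + 1)) / 2 * ‖y - z‖ ≤ ‖P i (y - z)‖ := by linarith
    rw [hK, dist_eq_norm, dist_eq_norm, ← map_sub, ← div_eq_inv_mul, le_div_iff₀ hc0]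
    linarith
  have h1 := hanti.le_dimH_image univ
  have h2 : dimH ((fun z : S (i, j, k, l) => P i (z : Z)) '' univ) ≤ ν := by
    refine (dimH_mono (subset_univ _)).trans ?_
    rw [Real.dimH_univ_pi_fin]
  have h3 : dimH (univ : Set (S (i, j, k, l))) = dimH (S (i, j, k, l)) := by
    have h4 := (isometry_subtype_coe (s := S (i, j, k, l))).dimH_image univ
    rw [image_univ, Subtype.range_coe] at h4
    exact h4.symm
  rw [← h3]
  exact h1.trans h2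

end Pool.Agent.T2H44.IV
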