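import Pool.Agent.TH318.IvDef

/-!
# Definitions: parallel transport along billiard trajectories, focusing directions, rank
-/

set_option autoImplicit false

open Set Filter Topology
open scoped InnerProductSpace
open Pool.Agent.H721R2.Ivrii

namespace Pool.Agent.T2H44.IV

variable {E : Type*} [NormedAddCommGroup E] [InnerProductSpace ℝ E] [CompleteSpace E]

/-- The boundary is regular at `q` and the rank of its second fundamental form at `q` is at most `r`.
(The number of the nonzero principal curvatures is at most `r`.) -/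
def RankLe (Ω : Set E) (q : E) (r : ℕ) : Prop :=
  ∃ F : E → ℝ, LocalDef Ω q F ∧ ∃ a : Fin r → E, ∀ w w' : E, ⟪gradient F q, w⟫_ℝ = 0 →
    ⟪gradient F q, w'⟫_ℝ = 0 → (∀ i, ⟪a i, w⟫_ℝ = 0) → fderiv ℝ (fderiv ℝ F) q w w' = 0

/-- The parallel transport of the vector `y` along the first `k` sides of a trajectory with the
directions `u 0, u 1, …`: at every bounce the vector is reflected in the tangent hyperplane, which
is orthogonal to `u (j + 1) - u j`. -/
noncomputable def transport (u : ℕ → E) : ℕ → E → E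
  | 0, y => y
  | k + 1, y => transport u k y -
      (2 * ⟪u (k + 1) - u k, transport u k y⟫_ℝ / ‖u (k + 1) - u k‖ ^ 2) • (u (k + 1) - u k)

/-- The focusing strengths `β 0, …, β (n - 1)` at the bounces of a period are all zero, or small
relative to the holonomy: `ℓ ∑ β k < ρ`, where `ℓ` is the length of a period and
`ρ |y|² ≤ |P y - g' y|²` for all vectors `y` orthogonal to `u 0`, `P` being the parallel transport over
a period and `g'` the linear part of `g`. -/
def WeakTotal (g : E ≃ᵃⁱ[ℝ] E) (n : ℕ) (p u : ℕ → E) (β : ℕ → ℝ) : Prop :=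
  (∀ k < n, β k = 0) ∨ ∃ ρ : ℝ,
    (∀ y, ⟪u 0, y⟫_ℝ = 0 → ρ * ‖y‖ ^ 2 ≤ ‖transport u n y - g.linearIsometryEquiv y‖ ^ 2) ∧
    Pool.Agent.TH318.Iv.pos p n * ∑ k ∈ Finset.range n, β k < ρ

/-- The phase points which start a billiard trajectory that is periodic modulo some isometry
`g ∈ Γ`, of any period `n`, such that at the bounces `k = 0, …, n - 1` of a period, off `r k` directions,
the focusing strength is at most `β k`, and either `∑ r k < 2 (d - 1)`, the `β k` being zero or small
relative to the holonomy, or `∑ r k ≤ 2 (d - 1)`, all `β k = 0` and the parity condition holds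
(for `g = 1`: `n` and the dimension `d` have the same parity). -/
def FewDir (Γ : Set (E ≃ᵃⁱ[ℝ] E)) (Ω : Set E) : Set (E × E) :=
  {z | ∃ g ∈ Γ, ∃ (n : ℕ) (p u : ℕ → E) (r : ℕ → ℕ) (β : ℕ → ℝ),
    OrbitMod Ω g n p u ∧ (p 0, u 0) = z ∧
    (∀ k < n, 0 ≤ β k ∧ Pool.Agent.TH318.Iv.FocLe Ω (p k) (u k) (r k) (β k)) ∧
    ((WeakTotal g n p u β ∧ ∑ k ∈ Finset.range n, r k < 2 * (Module.finrank ℝ E - 1)) ∨
      (Pool.Agent.TH318.Iv.Par g n ∧ (∀ k < n, β k = 0) ∧
        ∑ k ∈ Finset.range n, r k ≤ 2 * (Module.finrank ℝ E - 1)))}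

/-- The phase points which start a billiard trajectory that is periodic modulo some isometry
`g ∈ Γ`, of any period `n`, such that the ranks of the second fundamental form at the bounces
`k = 0, …, n - 1` of a period are at most `r k`, there are `v` linearly independent vectors
orthogonal to `u 0` which are fixed by the holonomy, and `∑ r k < 2 (d - 1) + v`. -/
def LowRank (Γ : Set (E ≃ᵃⁱ[ℝ] E)) (Ω : Set E) : Set (E × E) :=
  {z | ∃ g ∈ Γ, ∃ (n : ℕ) (p u : ℕ → E) (r : ℕ → ℕ) (v : ℕ) (w : Fin v → E),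
    OrbitMod Ω g n p u ∧ (p 0, u 0) = z ∧
    (∀ k < n, RankLe Ω (p k) (r k)) ∧
    LinearIndependent ℝ w ∧
    (∀ i, ⟪u 0, w i⟫_ℝ = 0 ∧ transport u n (w i) = g.linearIsometryEquiv (w i)) ∧
    ∑ k ∈ Finset.range n, r k < 2 * (Module.finrank ℝ E - 1) + v}

end Pool.Agent.T2H44.IV
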