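import Pool.Agent.TH318.IvF

/-!
# Closed Jacobi fields: linear algebra

`W` is a Euclidean space (the normal space of a trajectory, unfolded), `A k`, `B k` are the position
and the velocity of a Jacobi field at the vertex `k` (after the kick), as linear functions of the
initial values. All the Jacobi fields close up after `q` vertices, up to the holonomy `U`.
-/

set_option autoImplicit false

open Set Filter Topology
open scoped InnerProductSpace

namespace Pool.Agent.T2H44.IV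

/-- A closed family of Jacobi fields. The kick at the vertex `k + 1` is `K k`. -/
structure Jc (W : Type*) [NormedAddCommGroup W] [InnerProductSpace ℝ W] where
  q : ℕ
  L : ℕ → ℝ
  K : ℕ → W →ₗ[ℝ] W
  U : W →ₗ[ℝ] W
  A : ℕ → W × W →ₗ[ℝ] W
  B : ℕ → W × W →ₗ[ℝ] W
  hq : 0 < q
  hL : ∀ k < q, 0 < L k
  sym : ∀ k < q, ∀ x y, ⟪K k x, y⟫_ℝ = ⟪x, K k y⟫_ℝ
  iso : ∀ x y, ⟪U x, U y⟫_ℝ = ⟪x, y⟫_ℝ
  A0 : ∀ x, A 0 x = x.1
  B0 : ∀ x, B 0 x = x.2
  stepA : ∀ k < q, ∀ x, A (k + 1) x = A k x + L k • B k x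
  stepB : ∀ k < q, ∀ x, B (k + 1) x = B k x + K k (A (k + 1) x)
  Aq : ∀ x, A q x = U x.1
  Bq : ∀ x, B q x = U x.2

namespace Jc

variable {W : Type*} [NormedAddCommGroup W] [InnerProductSpace ℝ W] (J : Jc W)

/-- The index form on the broken lines. -/
noncomputable def I (F G : ℕ → W) : ℝ :=
  ∑ k ∈ Finset.range J.q, ((J.L k)⁻¹ * ⟪F (k + 1) - F k, G (k + 1) - G k⟫_ℝ +
    ⟪J.K k (F (k + 1)), G (k + 1)⟫_ℝ)

/-- The closed Jacobi fields are in the kernel of the index form. -/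
theorem I_jac (x : W × W) (G : ℕ → W) (hG : G J.q = J.U (G 0)) :
    J.I (fun k => J.A k x) G = 0 := by
  have h : ∀ m ≤ J.q, ∑ k ∈ Finset.range m,
      ((J.L k)⁻¹ * ⟪J.A (k + 1) x - J.A k x, G (k + 1) - G k⟫_ℝ +
        ⟪J.K k (J.A (k + 1) x), G (k + 1)⟫_ℝ) = ⟪J.B m x, G m⟫_ℝ - ⟪J.B 0 x, G 0⟫_ℝ := by
    intro m
    induction m with
    | zero => intro _; simp
    | succ m ih =>
      intro hm
      have hL := (J.hL m (by omega)).ne'
      rw [Finset.sum_range_succ, ih (by omega), J.stepB m (by omega)]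
      have e : J.A (m + 1) x - J.A m x = J.L m • J.B m x := by
        rw [J.stepA m (by omega)]; abel
      rw [e, real_inner_smul_left, inner_add_left, inner_sub_right]
      field_simp
      ring
  unfold I
  simp only
  rw [h J.q le_rfl, J.Bq, hG, J.iso, J.B0, sub_self]

theorem I_add_left (F F' G : ℕ → W) : J.I (fun k => F k + F' k) G = J.I F G + J.I F' G := by
  unfold I
  rw [← Finset.sum_add_distrib]
  refine Finset.sum_congr rfl fun k _ => ?_
  have e : F (k + 1) + F' (k + 1) - (F k + F' k) = (F (k + 1) - F k) + (F' (k + 1) - F' k) := by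
    abel
  simp only [e, map_add, inner_add_left]
  ring

theorem I_smul_left (c : ℝ) (F G : ℕ → W) : J.I (fun k => c • F k) G = c * J.I F G := by
  unfold I
  rw [Finset.mul_sum]
  refine Finset.sum_congr rfl fun k _ => ?_
  simp only [← smul_sub, map_smul, real_inner_smul_left]
  ring

theorem I_comm (F G : ℕ → W) : J.I F G = J.I G F := by
  unfold I
  refine Finset.sum_congr rfl fun k hk => ?_
  rw [J.sym k (Finset.mem_range.1 hk), real_inner_comm (G (k + 1) - G k),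
    real_inner_comm (J.K k (G (k + 1)))]

/-- A Jacobi field with velocity zero on all sides vanishes. -/
theorem par {x : W × W} (h : ∀ k < J.q, J.B k x = 0) : x = 0 := by
  have h2 : x.2 = 0 := by rw [← J.B0 x]; exact h 0 J.hq
  have hB : ∀ k ≤ J.q, J.B k x = 0 := by
    intro k hk
    rcases Nat.lt_or_ge k J.q with h1 | h1
    · exact h k h1
    · obtain rfl : k = J.q := le_antisymm hk h1
      rw [J.Bq, h2, map_zero]
  have hA : ∀ k ≤ J.q, J.A k x = x.1 := by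
    intro k
    induction k with
    | zero => intro _; exact J.A0 x
    | succ k ih =>
      intro hk
      rw [J.stepA k (by omega), ih (by omega), h k (by omega), smul_zero, add_zero]
  have hK : ∀ k < J.q, J.K k x.1 = 0 := by
    intro k hk
    have h1 := J.stepB k hk x
    rw [hB (k + 1) hk, hB k hk.le, hA (k + 1) hk, zero_add] at h1
    exact h1.symm
  -- test with the field of initial values `(0, x.1)`
  obtain ⟨y, hy⟩ : ∃ y : W × W, y = (0, x.1) := ⟨_, rfl⟩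
  have k1 : ∀ k ≤ J.q, ⟪J.B k y, x.1⟫_ℝ = ⟪x.1, x.1⟫_ℝ := by
    intro k
    induction k with
    | zero => intro _; rw [J.B0, hy]
    | succ k ih =>
      intro hk
      rw [J.stepB k (by omega), inner_add_left, ih (by omega), J.sym k (by omega),
        hK k (by omega), inner_zero_right, add_zero]
  have k2 : ∀ k ≤ J.q, ⟪J.A k y, x.1⟫_ℝ = (∑ j ∈ Finset.range k, J.L j) * ⟪x.1, x.1⟫_ℝ := by
    intro k
    induction k with
    | zero => intro _; rw [J.A0, hy]; simp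
    | succ k ih =>
      intro hk
      rw [J.stepA k (by omega), inner_add_left, ih (by omega), real_inner_smul_left,
        k1 k (by omega), Finset.sum_range_succ]
      ring
  have k3 := k2 J.q le_rfl
  rw [J.Aq, hy] at k3
  simp only [map_zero, inner_zero_left] at k3
  have k4 : 0 < ∑ j ∈ Finset.range J.q, J.L j :=
    Finset.sum_pos (fun j hj => J.hL j (Finset.mem_range.1 hj)) ⟨0, Finset.mem_range.2 J.hq⟩
  have k5 : ⟪x.1, x.1⟫_ℝ = 0 := by
    rcases mul_eq_zero.1 k3.symm with h1 | h1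
    · exact absurd h1 k4.ne'
    · exact h1
  exact Prod.ext (inner_self_eq_zero.1 k5) h2

variable [FiniteDimensional ℝ W]

/-- A linear map from a space of larger dimension to the space of all functionals has a kernel. -/
theorem exists_ker {V : Type*} [AddCommGroup V] [Module ℝ V] [FiniteDimensional ℝ V] {q : ℕ}
    {r : ℕ → ℕ} (Φ : V →ₗ[ℝ] ((k : Fin q) × Fin (r k) → ℝ))
    (h : ∑ k ∈ Finset.range q, r k < Module.finrank ℝ V) : ∃ v ≠ 0, Φ v = 0 := by
  have hcard : Module.finrank ℝ ((k : Fin q) × Fin (r k) → ℝ) =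
      ∑ k ∈ Finset.range q, r k := by
    rw [Module.finrank_fintype_fun_eq_card, Fintype.card_sigma]
    simp only [Fintype.card_fin]
    exact Fin.sum_univ_eq_sum_range (fun k => r k) q
  have h1 : LinearMap.ker Φ ≠ ⊥ := by
    apply LinearMap.ker_ne_bot_of_finrank_lt
    rw [hcard]; exact h
  obtain ⟨v, hv, hv0⟩ := (Submodule.ne_bot_iff _).1 h1
  exact ⟨v, hv0, LinearMap.mem_ker.1 hv⟩

/-- **Few focusing directions and a negative broken line**: at least `2 s + 1` directions. -/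
theorem foc_neg (r : ℕ → ℕ) (a : ∀ k, Fin (r k) → W)
    (hpos : ∀ k < J.q, ∀ y, (∀ i, ⟪a k i, y⟫_ℝ = 0) → 0 ≤ ⟪J.K k y, y⟫_ℝ)
    (Y : ℕ → W) (hY : Y J.q = J.U (Y 0)) (hneg : J.I Y Y < 0) :
    2 * Module.finrank ℝ W + 1 ≤ ∑ k ∈ Finset.range J.q, r k := by
  by_contra hcon
  obtain ⟨Φ, hΦ⟩ : ∃ Φ : ((W × W) × ℝ) →ₗ[ℝ] ((k : Fin J.q) × Fin (r k) → ℝ),
      ∀ x k i, Φ x ⟨k, i⟩ = ⟪a k i, J.A (k + 1) x.1 + x.2 • Y (k + 1)⟫_ℝ := by
    refine ⟨LinearMap.pi fun j => (innerₛₗ ℝ (a j.1 j.2)) ∘ₗ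
      ((J.A (j.1 + 1)) ∘ₗ LinearMap.fst ℝ _ _ +
        (LinearMap.toSpanSingleton ℝ W (Y (j.1 + 1))) ∘ₗ LinearMap.snd ℝ _ _), fun x k i => ?_⟩
    simp [LinearMap.pi_apply]
  obtain ⟨v, hv0, hv⟩ := exists_ker Φ (by
    rw [Module.finrank_prod, Module.finrank_prod, Module.finrank_self]
    omega)
  obtain ⟨x, c⟩ := v
  have hk : ∀ k < J.q, ∀ i, ⟪a k i, J.A (k + 1) x + c • Y (k + 1)⟫_ℝ = 0 := by
    intro k hk i
    have := congrFun hv ⟨⟨k, hk⟩, i⟩
    rw [hΦ] at this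
    exact this
  obtain ⟨F, hF⟩ : ∃ F : ℕ → W, F = fun k => J.A k x + c • Y k := ⟨_, rfl⟩
  have hFk : ∀ k, F k = J.A k x + c • Y k := fun k => by rw [hF]
  have hFq : F J.q = J.U (F 0) := by
    rw [hFk, hFk, J.Aq, J.A0, hY, map_add, map_smul]
  have e1 : J.I F F = c ^ 2 * J.I Y Y := by
    have h1 : J.I F F = J.I (fun k => J.A k x) F + J.I (fun k => c • Y k) F := by
      nth_rewrite 1 [hF]
      exact J.I_add_left (fun k => J.A k x) (fun k => c • Y k) F
    have h2 : J.I Y F = J.I (fun k => J.A k x) Y + J.I (fun k => c • Y k) Y := by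
      rw [J.I_comm]
      nth_rewrite 1 [hF]
      exact J.I_add_left (fun k => J.A k x) (fun k => c • Y k) Y
    rw [h1, J.I_jac x F hFq, zero_add, J.I_smul_left, h2, J.I_jac x Y hY, zero_add,
      J.I_smul_left]
    ring
  have term : ∀ k ∈ Finset.range J.q, 0 ≤ (J.L k)⁻¹ * ⟪F (k + 1) - F k, F (k + 1) - F k⟫_ℝ ∧
      0 ≤ ⟪J.K k (F (k + 1)), F (k + 1)⟫_ℝ := by
    intro k hk'
    have hk'' := Finset.mem_range.1 hk'
    refine ⟨mul_nonneg (inv_nonneg.2 (J.hL k hk'').le) real_inner_self_nonneg, ?_⟩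
    exact hpos k hk'' _ fun i => by rw [hFk]; exact hk k hk'' i
  have e2 : 0 ≤ J.I F F := Finset.sum_nonneg fun k hk' => add_nonneg (term k hk').1 (term k hk').2
  have hc : c = 0 := by
    by_contra hc
    have : 0 < c ^ 2 := by positivity
    nlinarith
  have e3 : J.I F F = 0 := by rw [e1, hc]; simp
  have e4 := (Finset.sum_eq_zero_iff_of_nonneg
    (fun k hk' => add_nonneg (term k hk').1 (term k hk').2)).1 e3
  have hx : x = 0 := by
    apply J.par
    intro k hk'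
    have h1 := e4 k (Finset.mem_range.2 hk')
    have h2 := term k (Finset.mem_range.2 hk')
    have h3 : (J.L k)⁻¹ * ⟪F (k + 1) - F k, F (k + 1) - F k⟫_ℝ = 0 := by linarith [h2.1, h2.2]
    have h4 : F (k + 1) - F k = 0 := by
      rcases mul_eq_zero.1 h3 with h5 | h5
      · exact absurd h5 (inv_ne_zero (J.hL k hk').ne')
      · exact inner_self_eq_zero.1 h5
    rw [hFk, hFk, hc, zero_smul, zero_smul, add_zero, add_zero, J.stepA k hk',
      add_sub_cancel_left] at h4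
    exact (smul_eq_zero.1 h4).resolve_left (J.hL k hk').ne'
  apply hv0
  rw [hx, hc]
  rfl

/-- **Few focusing directions.** -/
theorem foc (r : ℕ → ℕ) (a : ∀ k, Fin (r k) → W)
    (hpos : ∀ k < J.q, ∀ y, (∀ i, ⟪a k i, y⟫_ℝ = 0) → 0 ≤ ⟪J.K k y, y⟫_ℝ) :
    2 * Module.finrank ℝ W ≤ ∑ k ∈ Finset.range J.q, r k := by
  by_contra hcon
  obtain ⟨Φ, hΦ⟩ : ∃ Φ : (W × W) →ₗ[ℝ] ((k : Fin J.q) × Fin (r k) → ℝ),
      ∀ x k i, Φ x ⟨k, i⟩ = ⟪a k i, J.A (k + 1) x⟫_ℝ :=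
    ⟨LinearMap.pi fun j => (innerₛₗ ℝ (a j.1 j.2)) ∘ₗ (J.A (j.1 + 1)), fun x k i => rfl⟩
  obtain ⟨x, hx0, hx⟩ := exists_ker Φ (by
    rw [Module.finrank_prod]
    omega)
  apply hx0
  obtain ⟨F, hF⟩ : ∃ F : ℕ → W, F = fun k => J.A k x := ⟨_, rfl⟩
  have hFk : ∀ k, F k = J.A k x := fun k => by rw [hF]
  have hFq : F J.q = J.U (F 0) := by rw [hFk, hFk, J.Aq, J.A0]
  have e3 : J.I F F = 0 := by
    nth_rewrite 1 [hF]
    exact J.I_jac x F hFq
  have term : ∀ k ∈ Finset.range J.q, 0 ≤ (J.L k)⁻¹ * ⟪F (k + 1) - F k, F (k + 1) - F k⟫_ℝ ∧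
      0 ≤ ⟪J.K k (F (k + 1)), F (k + 1)⟫_ℝ := by
    intro k hk'
    have hk'' := Finset.mem_range.1 hk'
    refine ⟨mul_nonneg (inv_nonneg.2 (J.hL k hk'').le) real_inner_self_nonneg, ?_⟩
    refine hpos k hk'' _ fun i => ?_
    have := congrFun hx ⟨⟨k, hk''⟩, i⟩
    rw [hΦ] at this
    rw [hFk]
    exact this
  have e4 := (Finset.sum_eq_zero_iff_of_nonneg
    (fun k hk' => add_nonneg (term k hk').1 (term k hk').2)).1 e3
  apply J.par
  intro k hk'
  have h1 := e4 k (Finset.mem_range.2 hk')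
  have h2 := term k (Finset.mem_range.2 hk')
  have h3 : (J.L k)⁻¹ * ⟪F (k + 1) - F k, F (k + 1) - F k⟫_ℝ = 0 := by linarith [h2.1, h2.2]
  have h4 : F (k + 1) - F k = 0 := by
    rcases mul_eq_zero.1 h3 with h5 | h5
    · exact absurd h5 (inv_ne_zero (J.hL k hk').ne')
    · exact inner_self_eq_zero.1 h5
  rw [hFk, hFk, J.stepA k hk', add_sub_cancel_left] at h4
  exact (smul_eq_zero.1 h4).resolve_left (J.hL k hk').ne'

omit [FiniteDimensional ℝ W] in
/-- The length of a broken line. -/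
theorem cs (F : ℕ → W) (i j : ℕ) (hij : i ≤ j) (hj : j ≤ J.q) :
    ‖F j - F i‖ ≤ ∑ k ∈ Finset.Ico i j, ‖F (k + 1) - F k‖ := by
  induction j, hij using Nat.le_induction with
  | base => simp
  | succ j hij ih =>
    rw [Finset.sum_Ico_succ_top hij]
    have h1 := ih (by omega)
    have h2 := norm_sub_le_norm_sub_add_norm_sub (F (j + 1)) (F j) (F i)
    linarith

/-- **Weak focusing**, if the holonomy moves all vectors: if off `r k` directions the focusing
strength at the vertex `k + 1` is at most `β k` and `ℓ ∑ β k < ρ`, `ρ |y|² ≤ |U y - y|²`, then the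
sum of the `r k` is at least `2 s`. -/
theorem foc_weak (r : ℕ → ℕ) (a : ∀ k, Fin (r k) → W) (β : ℕ → ℝ) (ρ : ℝ)
    (hβ : ∀ k < J.q, 0 ≤ β k) (hρ : ∀ y, ρ * ‖y‖ ^ 2 ≤ ‖J.U y - y‖ ^ 2)
    (hlt : (∑ k ∈ Finset.range J.q, J.L k) * ∑ k ∈ Finset.range J.q, β k < ρ)
    (hpos : ∀ k < J.q, ∀ y, (∀ i, ⟪a k i, y⟫_ℝ = 0) → -(β k * ‖y‖ ^ 2) ≤ ⟪J.K k y, y⟫_ℝ) :
    2 * Module.finrank ℝ W ≤ ∑ k ∈ Finset.range J.q, r k := by
  by_contra hcon
  obtain ⟨Φ, hΦ⟩ : ∃ Φ : (W × W) →ₗ[ℝ] ((k : Fin J.q) × Fin (r k) → ℝ),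
      ∀ x k i, Φ x ⟨k, i⟩ = ⟪a k i, J.A (k + 1) x⟫_ℝ :=
    ⟨LinearMap.pi fun j => (innerₛₗ ℝ (a j.1 j.2)) ∘ₗ (J.A (j.1 + 1)), fun x k i => rfl⟩
  obtain ⟨x, hx0, hx⟩ := exists_ker Φ (by
    rw [Module.finrank_prod]
    omega)
  apply hx0
  obtain ⟨F, hF⟩ : ∃ F : ℕ → W, F = fun k => J.A k x := ⟨_, rfl⟩
  have hFk : ∀ k, F k = J.A k x := fun k => by rw [hF]
  have hFq : F J.q = J.U (F 0) := by rw [hFk, hFk, J.Aq, J.A0]
  have e3 : J.I F F = 0 := by
    nth_rewrite 1 [hF]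
    exact J.I_jac x F hFq
  obtain ⟨ℓ, hℓ⟩ : ∃ ℓ, ℓ = ∑ k ∈ Finset.range J.q, J.L k := ⟨_, rfl⟩
  obtain ⟨T, hT⟩ : ∃ T, T = ∑ k ∈ Finset.range J.q, (J.L k)⁻¹ * ‖F (k + 1) - F k‖ ^ 2 := ⟨_, rfl⟩
  obtain ⟨b, hb⟩ : ∃ b, b = ∑ k ∈ Finset.range J.q, β k := ⟨_, rfl⟩
  rw [← hℓ, ← hb] at hlt
  have hℓ0 : 0 < ℓ := by
    rw [hℓ]
    exact Finset.sum_pos (fun j hj => J.hL j (Finset.mem_range.1 hj))
      ⟨0, Finset.mem_range.2 J.hq⟩
  have hb0 : 0 ≤ b := by rw [hb]; exact Finset.sum_nonneg fun k hk => hβ k (Finset.mem_range.1 hk)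
  have hρ0 : 0 < ρ := lt_of_le_of_lt (mul_nonneg hℓ0.le hb0) hlt
  have hT0 : 0 ≤ T := by
    rw [hT]
    exact Finset.sum_nonneg fun k hk => mul_nonneg
      (inv_nonneg.2 (J.hL k (Finset.mem_range.1 hk)).le) (sq_nonneg _)
  have hUn : ∀ y, ‖J.U y‖ = ‖y‖ := by
    intro y
    have h1 := J.iso y y
    rw [real_inner_self_eq_norm_sq, real_inner_self_eq_norm_sq] at h1
    exact (pow_left_inj₀ (norm_nonneg _) (norm_nonneg _) two_ne_zero).1 h1
  -- the total variation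
  have hV : (∑ k ∈ Finset.range J.q, ‖F (k + 1) - F k‖) ^ 2 ≤ ℓ * T := by
    rw [hℓ, hT]
    refine Finset.sum_sq_le_sum_mul_sum_of_sq_le_mul _
      (fun j hj => (J.hL j (Finset.mem_range.1 hj)).le)
      (fun j hj => mul_nonneg (inv_nonneg.2 (J.hL j (Finset.mem_range.1 hj)).le) (sq_nonneg _))
      (fun j hj => ?_)
    have := (J.hL j (Finset.mem_range.1 hj)).ne'
    field_simp
    exact le_rfl
  have hpt : ∀ j ≤ J.q, ρ * ‖F j‖ ^ 2 ≤ ℓ * T := by
    intro j hj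
    have h1 : ‖J.U (F j) - F j‖ ≤ ∑ k ∈ Finset.range J.q, ‖F (k + 1) - F k‖ := by
      have h2 := J.cs F j J.q hj le_rfl
      have h3 := J.cs F 0 j (Nat.zero_le _) hj
      have h4 : ‖J.U (F j) - F J.q‖ = ‖F j - F 0‖ := by
        rw [hFq, ← map_sub, hUn]
      have h5 := norm_sub_le_norm_sub_add_norm_sub (J.U (F j)) (F J.q) (F j)
      have h6 := Finset.sum_Ico_consecutive (fun k => ‖F (k + 1) - F k‖) (Nat.zero_le j) hj
      rw [Finset.range_eq_Ico, ← h6]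
      linarith
    refine (hρ (F j)).trans (le_trans ?_ hV)
    exact pow_le_pow_left₀ (norm_nonneg _) h1 2
  -- the energy
  have hE : T ≤ ∑ k ∈ Finset.range J.q, β k * ‖F (k + 1)‖ ^ 2 := by
    have h1 : J.I F F = T + ∑ k ∈ Finset.range J.q, ⟪J.K k (F (k + 1)), F (k + 1)⟫_ℝ := by
      unfold I
      rw [Finset.sum_add_distrib, hT]
      congr 1
      refine Finset.sum_congr rfl fun k _ => ?_
      rw [real_inner_self_eq_norm_sq]
    have h2 : -∑ k ∈ Finset.range J.q, β k * ‖F (k + 1)‖ ^ 2 ≤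
        ∑ k ∈ Finset.range J.q, ⟪J.K k (F (k + 1)), F (k + 1)⟫_ℝ := by
      rw [← Finset.sum_neg_distrib]
      refine Finset.sum_le_sum fun k hk => ?_
      refine hpos k (Finset.mem_range.1 hk) _ fun i => ?_
      have := congrFun hx ⟨⟨k, Finset.mem_range.1 hk⟩, i⟩
      rw [hΦ] at this
      rw [hFk]
      exact this
    linarith
  have hE2 : ρ * T ≤ b * (ℓ * T) := by
    have h1 : ρ * ∑ k ∈ Finset.range J.q, β k * ‖F (k + 1)‖ ^ 2 ≤ b * (ℓ * T) := by
      rw [hb, Finset.mul_sum, Finset.sum_mul]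
      refine Finset.sum_le_sum fun k hk => ?_
      have h2 := mul_le_mul_of_nonneg_left (hpt (k + 1) (Finset.mem_range.1 hk))
        (hβ k (Finset.mem_range.1 hk))
      linarith
    exact (mul_le_mul_of_nonneg_left hE hρ0.le).trans h1
  have hT1 : T = 0 := by
    by_contra hne
    have h1 : 0 < T := lt_of_le_of_ne hT0 (Ne.symm hne)
    have h2 := mul_lt_mul_of_pos_right hlt h1
    nlinarith
  have e4 := (Finset.sum_eq_zero_iff_of_nonneg (fun k hk => mul_nonneg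
      (inv_nonneg.2 (J.hL k (Finset.mem_range.1 hk)).le) (sq_nonneg ‖F (k + 1) - F k‖))).1
      (hT.symm.trans hT1)
  apply J.par
  intro k hk'
  have h1 := e4 k (Finset.mem_range.2 hk')
  have h4 : F (k + 1) - F k = 0 := by
    rcases mul_eq_zero.1 h1 with h5 | h5
    · exact absurd h5 (inv_ne_zero (J.hL k hk').ne')
    · exact norm_eq_zero.1 (pow_eq_zero_iff two_ne_zero |>.1 h5)
  rw [hFk, hFk, J.stepA k hk', add_sub_cancel_left] at h4
  exact (smul_eq_zero.1 h4).resolve_left (J.hL k hk').ne'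

end Jc

end Pool.Agent.T2H44.IV
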