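import Pool.Agent.T2H44.IV.Lin

/-!
# Closed Jacobi fields: the total rank of the kicks, and the parity
-/

set_option autoImplicit false

open Set Filter Topology
open scoped InnerProductSpace

namespace Pool.Agent.T2H44.IV

namespace Jc

variable {W : Type*} [NormedAddCommGroup W] [InnerProductSpace ℝ W] (J : Jc W)

/-- The position of the vertex `k`. -/
noncomputable def t (k : ℕ) : ℝ := ∑ j ∈ Finset.range k, J.L j

theorem B_sum (x : W × W) : ∀ m ≤ J.q, J.B m x = x.2 +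
    ∑ k ∈ Finset.range m, J.K k (J.A (k + 1) x) := by
  intro m
  induction m with
  | zero => intro _; simp [J.B0]
  | succ m ih =>
    intro hm
    rw [J.stepB m (by omega), ih (by omega), Finset.sum_range_succ, add_assoc]

theorem A_sum (x : W × W) : ∀ m ≤ J.q, J.A m x = x.1 + J.t m • x.2 +
    ∑ k ∈ Finset.range m, (J.t m - J.t (k + 1)) • J.K k (J.A (k + 1) x) := by
  intro m
  induction m with
  | zero => intro _; simp [J.A0, t]
  | succ m ih =>
    intro hm
    have e : J.t (m + 1) = J.t m + J.L m := by unfold t; rw [Finset.sum_range_succ]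
    have e2 : ∑ k ∈ Finset.range m, (J.t (m + 1) - J.t (k + 1)) • J.K k (J.A (k + 1) x) =
        ∑ k ∈ Finset.range m, (J.t m - J.t (k + 1)) • J.K k (J.A (k + 1) x) +
          J.L m • ∑ k ∈ Finset.range m, J.K k (J.A (k + 1) x) := by
      rw [Finset.smul_sum, ← Finset.sum_add_distrib]
      refine Finset.sum_congr rfl fun k _ => ?_
      rw [e]
      module
    rw [Finset.sum_range_succ, sub_self, zero_smul, add_zero, e2, J.stepA m (by omega),
      J.B_sum x m (by omega), ih (by omega), e]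
    module

theorem t_pos : 0 < J.t J.q :=
  Finset.sum_pos (fun j hj => J.hL j (Finset.mem_range.1 hj)) ⟨0, Finset.mem_range.2 J.hq⟩

/-- A Jacobi field without kicks vanishes. -/
theorem nokick {x : W × W} (h : ∀ k < J.q, J.K k (J.A (k + 1) x) = 0) : x = 0 := by
  have h1 : ∀ m ≤ J.q, J.B m x = x.2 := by
    intro m hm
    rw [J.B_sum x m hm, Finset.sum_eq_zero, add_zero]
    intro k hk
    exact h k (by have := Finset.mem_range.1 hk; omega)
  have h2 : J.A J.q x = x.1 + J.t J.q • x.2 := by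
    rw [J.A_sum x J.q le_rfl, Finset.sum_eq_zero, add_zero]
    intro k hk
    rw [h k (Finset.mem_range.1 hk), smul_zero]
  have h3 := h1 J.q le_rfl
  rw [J.Bq] at h3
  rw [J.Aq] at h2
  have h4 : ⟪J.U x.1, J.U x.2⟫_ℝ = ⟪x.1, x.2⟫_ℝ := J.iso _ _
  rw [h3, h2, inner_add_left, real_inner_smul_left] at h4
  have h5 : J.t J.q * ⟪x.2, x.2⟫_ℝ = 0 := by linarith
  have h6 : x.2 = 0 := by
    rcases mul_eq_zero.1 h5 with h7 | h7
    · exact absurd h7 J.t_pos.ne'
    · exact inner_self_eq_zero.1 h7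
  apply J.par
  intro k hk
  rw [h1 k hk.le, h6]

/-- The partial sums of the index form along a Jacobi field. -/
theorem part (x : W × W) : ∀ m ≤ J.q, ∑ k ∈ Finset.range m,
      ((J.L k)⁻¹ * ⟪J.A (k + 1) x - J.A k x, J.A (k + 1) x - J.A k x⟫_ℝ +
        ⟪J.K k (J.A (k + 1) x), J.A (k + 1) x⟫_ℝ) =
        ⟪J.B m x, J.A m x⟫_ℝ - ⟪J.B 0 x, J.A 0 x⟫_ℝ := by
  intro m
  induction m with
  | zero => intro _; simp
  | succ m ih =>
    intro hm
    have hL := (J.hL m (by omega)).ne'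
    rw [Finset.sum_range_succ, ih (by omega), J.stepB m (by omega)]
    have e : J.A (m + 1) x - J.A m x = J.L m • J.B m x := by
      rw [J.stepA m (by omega)]; abel
    have e2 : J.A m x = J.A (m + 1) x - J.L m • J.B m x := by
      rw [J.stepA m (by omega)]; abel
    rw [e, e2, real_inner_smul_left, inner_add_left, inner_sub_right, inner_smul_right]
    field_simp
    ring

variable [FiniteDimensional ℝ W]

/-- **The total rank.** -/
theorem rank {v : ℕ} (w : Fin v → W) (hw : LinearIndependent ℝ w) (hU : ∀ i, J.U (w i) = w i) :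
    2 * Module.finrank ℝ W + v ≤
      ∑ k : Fin J.q, Module.finrank ℝ (LinearMap.range (J.K k)) := by
  obtain ⟨Φ, hΦ⟩ : ∃ Φ : (W × W) →ₗ[ℝ] (∀ k : Fin J.q, LinearMap.range (J.K k)),
      ∀ x (k : Fin J.q), ((Φ x k : LinearMap.range (J.K k)) : W) = J.K k (J.A (k + 1) x) :=
    ⟨LinearMap.pi fun k => (J.K k).rangeRestrict ∘ₗ J.A (k + 1), fun x k => rfl⟩
  obtain ⟨Ψ, hΨ⟩ : ∃ Ψ : (∀ k : Fin J.q, LinearMap.range (J.K k)) →ₗ[ℝ] (W × W),
      ∀ κ, Ψ κ = (∑ k : Fin J.q, (J.t J.q - J.t (k + 1)) • (κ k : W), ∑ k : Fin J.q, (κ k : W)) := by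
    refine ⟨LinearMap.prod (∑ k : Fin J.q, (J.t J.q - J.t (k + 1)) •
      ((LinearMap.range (J.K k)).subtype ∘ₗ LinearMap.proj k))
      (∑ k : Fin J.q, ((LinearMap.range (J.K k)).subtype ∘ₗ LinearMap.proj k)), fun κ => ?_⟩
    simp [LinearMap.prod_apply, LinearMap.sum_apply]
  have inj : Function.Injective Φ := by
    rw [← LinearMap.ker_eq_bot, LinearMap.ker_eq_bot']
    intro x hx
    apply J.nokick
    intro k hk
    have h1 := hΦ x ⟨k, hk⟩
    rw [hx] at h1
    exact h1.symm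
  have surj : LinearMap.range Ψ = ⊤ := by
    by_contra hne
    obtain ⟨f, hf0, hf⟩ := Submodule.exists_le_ker_of_lt_top _ (lt_top_iff_ne_top.2 hne)
    obtain ⟨x, hx⟩ : ∃ x : W, ∀ y, f (y, 0) = ⟪x, y⟫_ℝ := by
      refine ⟨(InnerProductSpace.toDual ℝ W).symm
        (LinearMap.toContinuousLinearMap (f ∘ₗ LinearMap.inl ℝ W W)), fun y => ?_⟩
      rw [InnerProductSpace.toDual_symm_apply]
      rfl
    obtain ⟨y, hy⟩ : ∃ y : W, ∀ w, f (0, w) = ⟪y, w⟫_ℝ := by
      refine ⟨(InnerProductSpace.toDual ℝ W).symm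
        (LinearMap.toContinuousLinearMap (f ∘ₗ LinearMap.inr ℝ W W)), fun y => ?_⟩
      rw [InnerProductSpace.toDual_symm_apply]
      rfl
    have hfxy : ∀ p : W × W, f p = ⟪x, p.1⟫_ℝ + ⟪y, p.2⟫_ℝ := by
      intro p
      rw [← hx, ← hy, ← map_add]
      simp
    have hK : ∀ k < J.q, J.K k ((J.t J.q - J.t (k + 1)) • x + y) = 0 := by
      intro k hk
      obtain ⟨z, hz⟩ : ∃ z, z = J.K k ((J.t J.q - J.t (k + 1)) • x + y) := ⟨_, rfl⟩
      have h1 : ∀ w, ⟪z, w⟫_ℝ = 0 := by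
        intro w
        obtain ⟨κ, hκ⟩ : ∃ κ : ∀ k : Fin J.q, LinearMap.range (J.K k),
            κ = Pi.single (⟨k, hk⟩ : Fin J.q) (⟨J.K k w, ⟨w, rfl⟩⟩ : LinearMap.range (J.K k)) :=
          ⟨_, rfl⟩
        have h2 : f (Ψ κ) = 0 := LinearMap.mem_ker.1 (hf ⟨κ, rfl⟩)
        have h3 : ∀ j : Fin J.q, j ≠ ⟨k, hk⟩ → (κ j : W) = 0 := by
          intro j hj
          rw [hκ, Pi.single_eq_of_ne hj]
          rfl
        have h4 : (κ ⟨k, hk⟩ : W) = J.K k w := by
          rw [hκ, Pi.single_eq_same]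
        rw [hfxy, hΨ] at h2
        simp only at h2
        rw [Finset.sum_eq_single (⟨k, hk⟩ : Fin J.q)
          (fun j _ hj => by rw [h3 j hj, smul_zero]) (fun h => absurd (Finset.mem_univ _) h),
          Finset.sum_eq_single (⟨k, hk⟩ : Fin J.q)
          (fun j _ hj => h3 j hj) (fun h => absurd (Finset.mem_univ _) h), h4] at h2
        rw [hz, J.sym k hk, inner_add_left, real_inner_smul_left]
        rw [inner_smul_right] at h2
        exact h2
      rw [← hz]
      exact inner_self_eq_zero.1 (h1 z)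
    obtain ⟨z, hz⟩ : ∃ z : W × W, z = (J.t J.q • x + y, -x) := ⟨_, rfl⟩
    have hAB : ∀ m ≤ J.q, J.A m z = (J.t J.q - J.t m) • x + y ∧ J.B m z = -x := by
      intro m
      induction m with
      | zero => intro _; rw [J.A0, J.B0, hz]; simp [t]
      | succ m ih =>
        intro hm
        obtain ⟨h1, h2⟩ := ih (by omega)
        have e : J.t (m + 1) = J.t m + J.L m := by unfold t; rw [Finset.sum_range_succ]
        have h3 : J.A (m + 1) z = (J.t J.q - J.t (m + 1)) • x + y := by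
          rw [J.stepA m (by omega), h1, h2, e]
          module
        refine ⟨h3, ?_⟩
        rw [J.stepB m (by omega), h2, h3, hK m (by omega), add_zero]
    have hz0 : z = 0 := by
      apply J.nokick
      intro k hk
      rw [(hAB (k + 1) hk).1, hK k hk]
    rw [hz] at hz0
    have h5 : x = 0 := by
      have := congrArg Prod.snd hz0
      simpa using this
    have h6 : y = 0 := by
      have := congrArg Prod.fst hz0
      simpa [h5] using this
    apply hf0
    apply LinearMap.ext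
    intro p
    rw [hfxy, h5, h6]
    simp
  have comp : ∀ x, Ψ (Φ x) = (J.U x.1 - x.1 - J.t J.q • x.2, J.U x.2 - x.2) := by
    intro x
    rw [hΨ]
    have h1 := J.A_sum x J.q le_rfl
    have h2 := J.B_sum x J.q le_rfl
    rw [J.Aq] at h1
    rw [J.Bq] at h2
    rw [Finset.sum_range] at h1 h2
    simp only [hΦ]
    rw [h1, h2]
    refine Prod.ext ?_ ?_
    · simp only; abel
    · simp only; abel
  -- the kernel
  have hker : v ≤ Module.finrank ℝ (LinearMap.ker Ψ) := by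
    have hmem : ∀ i, Φ (w i, 0) ∈ LinearMap.ker Ψ := by
      intro i
      rw [LinearMap.mem_ker, comp]
      simp [hU i]
    have hli : LinearIndependent ℝ (fun i => (⟨Φ (w i, 0), hmem i⟩ : LinearMap.ker Ψ)) := by
      apply LinearIndependent.of_comp (LinearMap.ker Ψ).subtype
      have h1 : LinearIndependent ℝ (fun i => (w i, (0 : W))) :=
        hw.map' (LinearMap.inl ℝ W W) (LinearMap.ker_eq_bot.2 LinearMap.inl_injective)
      exact h1.map' Φ (LinearMap.ker_eq_bot.2 inj)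
    have := hli.fintype_card_le_finrank
    rwa [Fintype.card_fin] at this
  have h1 := Ψ.finrank_range_add_finrank_ker
  rw [surj, finrank_top, Module.finrank_prod, Module.finrank_pi_fintype] at h1
  omega

/-- **The parity.** If the determinant of the holonomy has the wrong sign, there is a negative
broken line. -/
theorem exists_neg (hdet : (-1) ^ Module.finrank ℝ W * LinearMap.det J.U ≤ 0) :
    ∃ Y : ℕ → W, Y J.q = J.U (Y 0) ∧ J.I Y Y < 0 := by
  classical
  obtain ⟨A', hA'⟩ : ∃ A' : ℕ → W →ₗ[ℝ] W, A' = fun k => J.A k ∘ₗ LinearMap.inr ℝ W W := ⟨_, rfl⟩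
  obtain ⟨B', hB'⟩ : ∃ B' : ℕ → W →ₗ[ℝ] W, B' = fun k => J.B k ∘ₗ LinearMap.inr ℝ W W := ⟨_, rfl⟩
  have hA : ∀ k δ, A' k δ = J.A k (0, δ) := fun k δ => by rw [hA']; rfl
  have hB : ∀ k δ, B' k δ = J.B k (0, δ) := fun k δ => by rw [hB']; rfl
  obtain ⟨n, hn⟩ : ∃ n, J.q = n + 1 := ⟨J.q - 1, by have := J.hq; omega⟩
  have hBl : B' (J.q - 1) = J.U := by
    apply LinearMap.ext
    intro δ
    have h1 := J.stepB n (by omega) (0, δ)
    rw [← hn, J.Bq, J.Aq, map_zero, map_zero, add_zero] at h1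
    have e : J.q - 1 = n := by omega
    rw [hB, e, ← h1]
  obtain ⟨m, hm, τ, hτ0, hτ1, hτ2, δ, hδ, hz⟩ := Pool.Agent.TH318.Iv.exists_conj J.hq J.L J.hL A' B'
    (by apply LinearMap.ext; intro δ; rw [hA, J.A0]; rfl)
    (by apply LinearMap.ext; intro δ; rw [hB, J.B0]; rfl)
    (fun k hk => by
      apply LinearMap.ext; intro δ
      rw [LinearMap.add_apply, LinearMap.smul_apply, hA, hA, hB]
      exact J.stepA k hk _)
    (by apply LinearMap.ext; intro δ; rw [hA, J.Aq]; simp)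
    (by rw [hBl]; exact hdet)
  rw [hA, hB] at hz
  obtain ⟨x, hx⟩ : ∃ x : W × W, x = (0, δ) := ⟨_, rfl⟩
  rw [← hx] at hz
  obtain ⟨b, hb⟩ : ∃ b, b = J.B m x := ⟨_, rfl⟩
  have ha : J.A m x = -(τ • b) := by rw [hb]; exact eq_neg_of_add_eq_zero_left hz
  have hb0 : b ≠ 0 := by
    intro h0
    have h1 : ∀ k, m ≤ k → k ≤ J.q → J.A k x = 0 ∧ J.B k x = 0 := by
      intro k hmk
      induction k, hmk using Nat.le_induction with
      | base => intro _; rw [ha, ← hb, h0]; simp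
      | succ k hmk ih =>
        intro hk
        obtain ⟨h1, h2⟩ := ih (by omega)
        have h3 : J.A (k + 1) x = 0 := by rw [J.stepA k (by omega), h1, h2]; simp
        exact ⟨h3, by rw [J.stepB k (by omega), h3, h2]; simp⟩
    have h2 := (h1 J.q hm.le le_rfl).2
    rw [J.Bq, hx] at h2
    have h3 := J.iso δ δ
    simp only at h2
    rw [h2, inner_zero_left] at h3
    exact hδ (inner_self_eq_zero.1 h3.symm)
  have hbp : 0 < ⟪b, b⟫_ℝ := by
    rw [real_inner_self_eq_norm_sq]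
    exact pow_pos (norm_pos_iff.2 hb0) 2
  have hA0 : J.A 0 x = 0 := by rw [J.A0, hx]
  have hpart := J.part x m hm.le
  rw [hA0, inner_zero_right, sub_zero, ← hb, ha, inner_neg_right, inner_smul_right] at hpart
  have hLm := J.hL m hm
  -- the broken line with the value `c` at the vertex `m + 1`
  have key : ∀ c : W, (m + 1 = J.q → c = 0) → ∃ Y : ℕ → W, Y J.q = J.U (Y 0) ∧
      J.I Y Y = -(τ * ⟪b, b⟫_ℝ) + ((J.L m)⁻¹ * ⟪c + τ • b, c + τ • b⟫_ℝ + ⟪J.K m c, c⟫_ℝ) +
        if m + 1 < J.q then (J.L (m + 1))⁻¹ * ⟪c, c⟫_ℝ else 0 := by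
    intro c hc
    obtain ⟨Y, hY⟩ : ∃ Y : ℕ → W, Y = fun k => if k ≤ m then J.A k x else if k = m + 1 then c else 0 :=
      ⟨_, rfl⟩
    have y1 : ∀ k ≤ m, Y k = J.A k x := fun k hk => by rw [hY]; simp only [if_pos hk]
    have y2 : Y (m + 1) = c := by rw [hY]; simp
    have y3 : ∀ k, m + 1 < k → Y k = 0 := by
      intro k hk
      rw [hY]
      simp only [if_neg (show ¬ k ≤ m by omega), if_neg (show ¬ k = m + 1 by omega)]
    refine ⟨Y, ?_, ?_⟩
    · rw [y1 0 (Nat.zero_le _), hA0, map_zero]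
      rcases Nat.lt_or_ge (m + 1) J.q with h | h
      · exact y3 _ h
      · have e : m + 1 = J.q := by omega
        rw [← e, y2]; exact hc e
    · obtain ⟨f, hf⟩ : ∃ f : ℕ → ℝ, f = fun k => (J.L k)⁻¹ * ⟪Y (k + 1) - Y k, Y (k + 1) - Y k⟫_ℝ +
          ⟪J.K k (Y (k + 1)), Y (k + 1)⟫_ℝ := ⟨_, rfl⟩
      have e0 : J.I Y Y = ∑ k ∈ Finset.range J.q, f k := by rw [hf]; rfl
      have e1 : ∑ k ∈ Finset.range m, f k = -(τ * ⟪b, b⟫_ℝ) := by
        rw [← hpart]
        refine Finset.sum_congr rfl fun k hk => ?_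
        have := Finset.mem_range.1 hk
        rw [hf]
        simp only
        rw [y1 k (by omega), y1 (k + 1) (by omega)]
      have e2 : f m = (J.L m)⁻¹ * ⟪c + τ • b, c + τ • b⟫_ℝ + ⟪J.K m c, c⟫_ℝ := by
        rw [hf]
        simp only
        rw [y2, y1 m le_rfl, ha, sub_neg_eq_add]
      have e3 : ∀ k, m + 1 < k → f k = 0 := by
        intro k hk
        rw [hf]
        simp only
        rw [y3 k hk, y3 (k + 1) (by omega)]
        simp
      have e4 : f (m + 1) = (J.L (m + 1))⁻¹ * ⟪c, c⟫_ℝ := by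
        rw [hf]
        simp only
        rw [y3 (m + 1 + 1) (by omega), y2]
        simp
      rw [e0]
      split_ifs with h
      · have e5 : ∑ k ∈ Finset.range J.q, f k = ∑ k ∈ Finset.range (m + 2), f k := by
          symm
          refine Finset.sum_subset (Finset.range_mono (by omega)) fun k _ hk => ?_
          have := Finset.mem_range.not.1 hk
          exact e3 k (by omega)
        rw [e5, Finset.sum_range_succ, Finset.sum_range_succ, e1, e2, e4]
      · have e5 : J.q = m + 1 := by omega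
        rw [e5, Finset.sum_range_succ, e1, e2, add_zero]
  rcases lt_or_eq_of_le hτ1 with hlt | heq
  · obtain ⟨Y, h1, h2⟩ := key 0 (fun _ => rfl)
    refine ⟨Y, h1, ?_⟩
    rw [h2, zero_add, map_zero, inner_zero_left, mul_zero, add_zero]
    have e1 : ⟪τ • b, τ • b⟫_ℝ = τ ^ 2 * ⟪b, b⟫_ℝ := by
      rw [real_inner_smul_left, inner_smul_right]; ring
    rw [e1]
    have e2 : (J.L m)⁻¹ * (τ ^ 2 * ⟪b, b⟫_ℝ) < τ * ⟪b, b⟫_ℝ := by
      rw [inv_mul_lt_iff₀ hLm]
      have := mul_lt_mul_of_pos_right hlt (mul_pos hτ0 hbp)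
      nlinarith
    split_ifs <;> linarith
  · have hm1 : m + 1 < J.q := by
      by_contra hcon
      have := hτ2 (by omega)
      linarith
    have hL1 := J.hL (m + 1) hm1
    obtain ⟨D, hD⟩ : ∃ D, D = (J.L m)⁻¹ * ⟪b, b⟫_ℝ + ⟪J.K m b, b⟫_ℝ +
      (J.L (m + 1))⁻¹ * ⟪b, b⟫_ℝ := ⟨_, rfl⟩
    obtain ⟨ε, hε⟩ : ∃ ε, ε = ⟪b, b⟫_ℝ / (|D| + 1) := ⟨_, rfl⟩
    have hD1 : 0 < |D| + 1 := by positivity
    have hε0 : 0 < ε := by rw [hε]; exact div_pos hbp hD1
    have hεD : ε * D < ⟪b, b⟫_ℝ := by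
      have h1 : ε * (|D| + 1) = ⟪b, b⟫_ℝ := by rw [hε, div_mul_cancel₀ _ hD1.ne']
      have h2 := mul_le_mul_of_nonneg_left (le_abs_self D) hε0.le
      nlinarith
    obtain ⟨Y, h1, h2⟩ := key (-(ε • b)) (fun h => absurd h (by omega))
    refine ⟨Y, h1, ?_⟩
    rw [h2, if_pos hm1]
    have e1 : -(ε • b) + τ • b = (τ - ε) • b := by module
    rw [e1, map_neg, map_smul, inner_neg_neg, inner_neg_neg, real_inner_smul_left,
      inner_smul_right, real_inner_smul_left, inner_smul_right, real_inner_smul_left,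
      inner_smul_right, heq]
    have e2 : (J.L m)⁻¹ * ((J.L m - ε) * ((J.L m - ε) * ⟪b, b⟫_ℝ)) =
        J.L m * ⟪b, b⟫_ℝ - 2 * ε * ⟪b, b⟫_ℝ + ε ^ 2 * ((J.L m)⁻¹ * ⟪b, b⟫_ℝ) := by
      field_simp
      ring
    rw [e2]
    have e3 : ε * (ε * D) < ε * ⟪b, b⟫_ℝ := mul_lt_mul_of_pos_left hεD hε0
    have e4 : ε * (ε * D) = ε ^ 2 * ((J.L m)⁻¹ * ⟪b, b⟫_ℝ) + ε * (ε * ⟪J.K m b, b⟫_ℝ) +
        (J.L (m + 1))⁻¹ * (ε * (ε * ⟪b, b⟫_ℝ)) := by
      rw [hD]; ring
    nlinarith [mul_pos hε0 hbp]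

end Jc

end Pool.Agent.T2H44.IV
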