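import Pool.Agent.T2H44.IV.Lin2

/-!
# Jacobi fields, not all of them closed: the dimension of the space of closed fields
-/

set_option autoImplicit false

open Set Filter Topology
open scoped InnerProductSpace

namespace Pool.Agent.T2H44.IV

/-- A family of Jacobi fields along a closed trajectory. The kick at the vertex `k + 1` is `K k`, the
holonomy is `U`. -/
structure Jo (W : Type*) [NormedAddCommGroup W] [InnerProductSpace ℝ W] where
  q : ℕ
  L : ℕ → ℝ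
  K : ℕ → W →ₗ[ℝ] W
  U : W →ₗ[ℝ] W
  A : ℕ → W × W →ₗ[ℝ] W
  B : ℕ → W × W →ₗ[ℝ] W
  hq : 0 < q
  hL : ∀ k < q, 0 < L k
  sym : ∀ k < q, ∀ x y, ⟪K k x, y⟫_ℝ = ⟪x, K k y⟫_ℝ
  iso : ∀ x y, ⟪U x, U y⟫_ℝ = ⟪x, y⟫_ℝ
  A0 : ∀ x, A 0 x = x.1
  B0 : ∀ x, B 0 x = x.2
  stepA : ∀ k < q, ∀ x, A (k + 1) x = A k x + L k • B k x
  stepB : ∀ k < q, ∀ x, B (k + 1) x = B k x + K k (A (k + 1) x)

namespace Jo

variable {W : Type*} [NormedAddCommGroup W] [InnerProductSpace ℝ W] (J : Jo W)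

/-- The space of the closed fields. -/
def N : Submodule ℝ (W × W) :=
  LinearMap.ker (J.A J.q - J.U ∘ₗ LinearMap.fst ℝ W W) ⊓
    LinearMap.ker (J.B J.q - J.U ∘ₗ LinearMap.snd ℝ W W)

theorem mem_N {x : W × W} : x ∈ J.N ↔ J.A J.q x = J.U x.1 ∧ J.B J.q x = J.U x.2 := by
  unfold N
  rw [Submodule.mem_inf, LinearMap.mem_ker, LinearMap.mem_ker, LinearMap.sub_apply,
    LinearMap.sub_apply, sub_eq_zero, sub_eq_zero]
  rfl

/-- If all fields are closed. -/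
def toJc (h : ∀ x, x ∈ J.N) : Jc W where
  q := J.q
  L := J.L
  K := J.K
  U := J.U
  A := J.A
  B := J.B
  hq := J.hq
  hL := J.hL
  sym := J.sym
  iso := J.iso
  A0 := J.A0
  B0 := J.B0
  stepA := J.stepA
  stepB := J.stepB
  Aq x := (J.mem_N.1 (h x)).1
  Bq x := (J.mem_N.1 (h x)).2

/-- The normal vectors which are fixed by the holonomy and not kicked. -/
def N0 : Submodule ℝ W :=
  LinearMap.ker (J.U - LinearMap.id) ⊓ ⨅ k : Fin J.q, LinearMap.ker (J.K k)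

theorem mem_N0 {a : W} : a ∈ J.N0 ↔ J.U a = a ∧ ∀ k < J.q, J.K k a = 0 := by
  unfold N0
  rw [Submodule.mem_inf, LinearMap.mem_ker, Submodule.mem_iInf, LinearMap.sub_apply, sub_eq_zero]
  constructor
  · rintro ⟨h1, h2⟩
    exact ⟨h1, fun k hk => h2 ⟨k, hk⟩⟩
  · rintro ⟨h1, h2⟩
    exact ⟨h1, fun k => h2 k k.2⟩

/-- A closed field with velocity zero on all sides. -/
theorem par {x : W × W} (hx : x ∈ J.N) (h : ∀ k < J.q, J.B k x = 0) :
    x.2 = 0 ∧ x.1 ∈ J.N0 := by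
  obtain ⟨hx1, hx2⟩ := J.mem_N.1 hx
  have h2 : x.2 = 0 := by rw [← J.B0 x]; exact h 0 J.hq
  have hB : ∀ k ≤ J.q, J.B k x = 0 := by
    intro k hk
    rcases Nat.lt_or_ge k J.q with h1 | h1
    · exact h k h1
    · obtain rfl : k = J.q := le_antisymm hk h1
      rw [hx2, h2, map_zero]
  have hA : ∀ k ≤ J.q, J.A k x = x.1 := by
    intro k
    induction k with
    | zero => intro _; exact J.A0 x
    | succ k ih =>
      intro hk
      rw [J.stepA k (by omega), ih (by omega), h k (by omega), smul_zero, add_zero]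
  refine ⟨h2, J.mem_N0.2 ⟨?_, fun k hk => ?_⟩⟩
  · rw [← hx1, hA J.q le_rfl]
  · have h1 := J.stepB k hk x
    rw [hB (k + 1) hk, hB k hk.le, hA (k + 1) hk, zero_add] at h1
    exact h1.symm

/-- The velocity of a closed field is orthogonal to the unkicked parallel vectors. -/
theorem perp {x : W × W} (hx : x ∈ J.N) {a : W} (ha : a ∈ J.N0) : ⟪x.2, a⟫_ℝ = 0 := by
  obtain ⟨hx1, hx2⟩ := J.mem_N.1 hx
  obtain ⟨h1, h2⟩ := J.mem_N0.1 ha
  have k1 : ∀ k ≤ J.q, ⟪J.B k x, a⟫_ℝ = ⟪x.2, a⟫_ℝ := by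
    intro k
    induction k with
    | zero => intro _; rw [J.B0]
    | succ k ih =>
      intro hk
      rw [J.stepB k (by omega), inner_add_left, ih (by omega), J.sym k (by omega),
        h2 k (by omega), inner_zero_right, add_zero]
  have k2 : ∀ k ≤ J.q, ⟪J.A k x, a⟫_ℝ = ⟪x.1, a⟫_ℝ +
      (∑ j ∈ Finset.range k, J.L j) * ⟪x.2, a⟫_ℝ := by
    intro k
    induction k with
    | zero => intro _; rw [J.A0]; simp
    | succ k ih =>
      intro hk
      rw [J.stepA k (by omega), inner_add_left, ih (by omega), real_inner_smul_left,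
        k1 k (by omega), Finset.sum_range_succ]
      ring
  have k3 := k2 J.q le_rfl
  have k4 : ⟪J.U x.1, a⟫_ℝ = ⟪x.1, a⟫_ℝ := by
    nth_rewrite 1 [← h1]
    exact J.iso _ _
  rw [hx1, k4] at k3
  have k5 : 0 < ∑ j ∈ Finset.range J.q, J.L j :=
    Finset.sum_pos (fun j hj => J.hL j (Finset.mem_range.1 hj)) ⟨0, Finset.mem_range.2 J.hq⟩
  have k6 : (∑ j ∈ Finset.range J.q, J.L j) * ⟪x.2, a⟫_ℝ = 0 := by linarith
  exact (mul_eq_zero.1 k6).resolve_left k5.ne'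

/-- The energy of a closed field. -/
theorem energy {x : W × W} (hx : x ∈ J.N) :
    ∑ k ∈ Finset.range J.q, (J.L k * ‖J.B k x‖ ^ 2 + ⟪J.K k (J.A (k + 1) x), J.A (k + 1) x⟫_ℝ) =
      0 := by
  obtain ⟨hx1, hx2⟩ := J.mem_N.1 hx
  have h : ∀ m ≤ J.q, ∑ k ∈ Finset.range m,
      (J.L k * ‖J.B k x‖ ^ 2 + ⟪J.K k (J.A (k + 1) x), J.A (k + 1) x⟫_ℝ) =
        ⟪J.B m x, J.A m x⟫_ℝ - ⟪J.B 0 x, J.A 0 x⟫_ℝ := by
    intro m
    induction m with
    | zero => intro _; simp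
    | succ m ih =>
      intro hm
      rw [Finset.sum_range_succ, ih (by omega), J.stepB m (by omega), inner_add_left]
      have e : ⟪J.B m x, J.A (m + 1) x⟫_ℝ = ⟪J.B m x, J.A m x⟫_ℝ + J.L m * ‖J.B m x‖ ^ 2 := by
        rw [J.stepA m (by omega), inner_add_right, inner_smul_right, real_inner_self_eq_norm_sq]
      rw [e]
      ring
  rw [h J.q le_rfl, hx1, hx2, J.iso, J.B0, J.A0, sub_self]

variable [FiniteDimensional ℝ W]

/-- The space of closed fields is not much larger than the number of focusing directions. -/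
theorem nullity (r : ℕ → ℕ) (a : ∀ k, Fin (r k) → W)
    (hpos : ∀ k < J.q, ∀ y, (∀ i, ⟪a k i, y⟫_ℝ = 0) → 0 ≤ ⟪J.K k y, y⟫_ℝ) :
    Module.finrank ℝ J.N ≤ ∑ k ∈ Finset.range J.q, r k + Module.finrank ℝ J.N0 := by
  obtain ⟨Φ, hΦ⟩ : ∃ Φ : J.N →ₗ[ℝ] ((k : Fin J.q) × Fin (r k) → ℝ),
      ∀ x k i, Φ x ⟨k, i⟩ = ⟪a k i, J.A (k + 1) x⟫_ℝ :=
    ⟨LinearMap.pi fun j => (innerₛₗ ℝ (a j.1 j.2)) ∘ₗ (J.A (j.1 + 1)) ∘ₗ J.N.subtype,
      fun x k i => rfl⟩
  have hker : ∀ x ∈ LinearMap.ker Φ, (x : W × W).2 = 0 ∧ (x : W × W).1 ∈ J.N0 := by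
    intro x hx
    have hx' : ∀ k < J.q, 0 ≤ ⟪J.K k (J.A (k + 1) x), J.A (k + 1) (x : W × W)⟫_ℝ := by
      intro k hk
      refine hpos k hk _ fun i => ?_
      have := congrFun (LinearMap.mem_ker.1 hx) ⟨⟨k, hk⟩, i⟩
      rw [hΦ] at this
      exact this
    have he := J.energy x.2
    have term : ∀ k ∈ Finset.range J.q, 0 ≤ J.L k * ‖J.B k (x : W × W)‖ ^ 2 ∧
        0 ≤ ⟪J.K k (J.A (k + 1) x), J.A (k + 1) (x : W × W)⟫_ℝ := fun k hk =>
      ⟨mul_nonneg (J.hL k (Finset.mem_range.1 hk)).le (sq_nonneg _),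
        hx' k (Finset.mem_range.1 hk)⟩
    have e4 := (Finset.sum_eq_zero_iff_of_nonneg
      (fun k hk' => add_nonneg (term k hk').1 (term k hk').2)).1 he
    refine J.par x.2 fun k hk => ?_
    have h1 := e4 k (Finset.mem_range.2 hk)
    have h2 := term k (Finset.mem_range.2 hk)
    have h3 : J.L k * ‖J.B k (x : W × W)‖ ^ 2 = 0 := by linarith [h2.1, h2.2]
    rcases mul_eq_zero.1 h3 with h5 | h5
    · exact absurd h5 (J.hL k hk).ne'
    · exact norm_eq_zero.1 (pow_eq_zero_iff two_ne_zero |>.1 h5)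
  have hk2 : Module.finrank ℝ (LinearMap.ker Φ) ≤ Module.finrank ℝ J.N0 := by
    obtain ⟨f, hf⟩ : ∃ f : LinearMap.ker Φ →ₗ[ℝ] J.N0, ∀ x, (f x : W) = ((x : J.N) : W × W).1 :=
      ⟨LinearMap.codRestrict J.N0 (LinearMap.fst ℝ W W ∘ₗ J.N.subtype ∘ₗ
        (LinearMap.ker Φ).subtype) (fun x => (hker x.1 x.2).2), fun x => rfl⟩
    have hfi : Function.Injective f := by
      intro x y hxy
      apply Subtype.ext
      apply Subtype.ext
      refine Prod.ext ?_ ((hker x.1 x.2).1.trans (hker y.1 y.2).1.symm)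
      rw [← hf, hxy, hf]
    exact LinearMap.finrank_le_finrank_of_injective hfi
  have h1 := Φ.finrank_range_add_finrank_ker
  have h2 := Submodule.finrank_le (LinearMap.range Φ)
  have hcard : Module.finrank ℝ ((k : Fin J.q) × Fin (r k) → ℝ) =
      ∑ k ∈ Finset.range J.q, r k := by
    rw [Module.finrank_fintype_fun_eq_card, Fintype.card_sigma]
    simp only [Fintype.card_fin]
    exact Fin.sum_univ_eq_sum_range (fun k => r k) J.q
  omega

/-- The other bound. -/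
theorem nullity2 : Module.finrank ℝ J.N + Module.finrank ℝ J.N0 ≤ 2 * Module.finrank ℝ W := by
  have h1 : Module.finrank ℝ J.N ≤ Module.finrank ℝ W + Module.finrank ℝ J.N0ᗮ := by
    obtain ⟨f, hf⟩ : ∃ f : J.N →ₗ[ℝ] (W × J.N0ᗮ), ∀ x, (f x).1 = (x : W × W).1 ∧
        ((f x).2 : W) = (x : W × W).2 := by
      refine ⟨LinearMap.prod (LinearMap.fst ℝ W W ∘ₗ J.N.subtype)
        (LinearMap.codRestrict J.N0ᗮ (LinearMap.snd ℝ W W ∘ₗ J.N.subtype) fun x => ?_),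
        fun x => ⟨rfl, rfl⟩⟩
      rw [Submodule.mem_orthogonal']
      intro a ha
      exact J.perp x.2 ha
    have h2 := LinearMap.finrank_le_finrank_of_injective (f := f) (by
      rw [← LinearMap.ker_eq_bot, LinearMap.ker_eq_bot']
      intro x hx
      apply Subtype.ext
      refine Prod.ext ?_ ?_
      · rw [← (hf x).1, hx]; rfl
      · rw [← (hf x).2, hx]; rfl)
    rwa [Module.finrank_prod] at h2
  have h2 := Submodule.finrank_add_finrank_orthogonal J.N0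
  omega

/-- The variant for weak focusing, if the holonomy moves all vectors. -/
theorem nullity_weak (r : ℕ → ℕ) (a : ∀ k, Fin (r k) → W) (β : ℕ → ℝ) (ρ : ℝ)
    (hβ : ∀ k < J.q, 0 ≤ β k) (hρ : ∀ y, ρ * ‖y‖ ^ 2 ≤ ‖J.U y - y‖ ^ 2)
    (hlt : (∑ k ∈ Finset.range J.q, J.L k) * ∑ k ∈ Finset.range J.q, β k < ρ)
    (hpos : ∀ k < J.q, ∀ y, (∀ i, ⟪a k i, y⟫_ℝ = 0) → -(β k * ‖y‖ ^ 2) ≤ ⟪J.K k y, y⟫_ℝ) :
    Module.finrank ℝ J.N ≤ ∑ k ∈ Finset.range J.q, r k := by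
  by_contra hcon
  obtain ⟨Φ, hΦ⟩ : ∃ Φ : J.N →ₗ[ℝ] ((k : Fin J.q) × Fin (r k) → ℝ),
      ∀ x k i, Φ x ⟨k, i⟩ = ⟪a k i, J.A (k + 1) x⟫_ℝ :=
    ⟨LinearMap.pi fun j => (innerₛₗ ℝ (a j.1 j.2)) ∘ₗ (J.A (j.1 + 1)) ∘ₗ J.N.subtype,
      fun x k i => rfl⟩
  obtain ⟨x, hx0, hx⟩ := Jc.exists_ker Φ (not_le.1 hcon)
  apply hx0
  obtain ⟨hx1, hx2⟩ := J.mem_N.1 x.2
  obtain ⟨F, hF⟩ : ∃ F : ℕ → W, F = fun k => J.A k x := ⟨_, rfl⟩
  have hFk : ∀ k, F k = J.A k x := fun k => by rw [hF]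
  have hFq : F J.q = J.U (F 0) := by rw [hFk, hFk, hx1, J.A0]
  have hFs : ∀ k < J.q, F (k + 1) - F k = J.L k • J.B k x := by
    intro k hk
    rw [hFk, hFk, J.stepA k hk, add_sub_cancel_left]
  obtain ⟨ℓ, hℓ⟩ : ∃ ℓ, ℓ = ∑ k ∈ Finset.range J.q, J.L k := ⟨_, rfl⟩
  obtain ⟨T, hT⟩ : ∃ T, T = ∑ k ∈ Finset.range J.q, J.L k * ‖J.B k (x : W × W)‖ ^ 2 := ⟨_, rfl⟩
  obtain ⟨b, hb⟩ : ∃ b, b = ∑ k ∈ Finset.range J.q, β k := ⟨_, rfl⟩
  rw [← hℓ, ← hb] at hlt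
  have hℓ0 : 0 < ℓ := by
    rw [hℓ]
    exact Finset.sum_pos (fun j hj => J.hL j (Finset.mem_range.1 hj))
      ⟨0, Finset.mem_range.2 J.hq⟩
  have hb0 : 0 ≤ b := by rw [hb]; exact Finset.sum_nonneg fun k hk => hβ k (Finset.mem_range.1 hk)
  have hρ0 : 0 < ρ := lt_of_le_of_lt (mul_nonneg hℓ0.le hb0) hlt
  have hT0 : 0 ≤ T := by
    rw [hT]
    exact Finset.sum_nonneg fun k hk => mul_nonneg (J.hL k (Finset.mem_range.1 hk)).le
      (sq_nonneg _)
  have hUn : ∀ y, ‖J.U y‖ = ‖y‖ := by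
    intro y
    have h1 := J.iso y y
    rw [real_inner_self_eq_norm_sq, real_inner_self_eq_norm_sq] at h1
    exact (pow_left_inj₀ (norm_nonneg _) (norm_nonneg _) two_ne_zero).1 h1
  -- the total variation
  have hV : (∑ k ∈ Finset.range J.q, ‖F (k + 1) - F k‖) ^ 2 ≤ ℓ * T := by
    rw [hℓ, hT]
    refine Finset.sum_sq_le_sum_mul_sum_of_sq_le_mul _
      (fun j hj => (J.hL j (Finset.mem_range.1 hj)).le)
      (fun j hj => mul_nonneg (J.hL j (Finset.mem_range.1 hj)).le (sq_nonneg _))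
      (fun j hj => ?_)
    rw [hFs j (Finset.mem_range.1 hj), norm_smul, Real.norm_eq_abs,
      abs_of_pos (J.hL j (Finset.mem_range.1 hj))]
    exact le_of_eq (by ring)
  have hcs : ∀ i j, i ≤ j → ‖F j - F i‖ ≤ ∑ k ∈ Finset.Ico i j, ‖F (k + 1) - F k‖ := by
    intro i j hij
    induction j, hij using Nat.le_induction with
    | base => simp
    | succ j hij ih =>
      rw [Finset.sum_Ico_succ_top hij]
      have h2 := norm_sub_le_norm_sub_add_norm_sub (F (j + 1)) (F j) (F i)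
      linarith
  have hpt : ∀ j ≤ J.q, ρ * ‖F j‖ ^ 2 ≤ ℓ * T := by
    intro j hj
    have h1 : ‖J.U (F j) - F j‖ ≤ ∑ k ∈ Finset.range J.q, ‖F (k + 1) - F k‖ := by
      have h2 := hcs j J.q hj
      have h3 := hcs 0 j (Nat.zero_le _)
      have h4 : ‖J.U (F j) - F J.q‖ = ‖F j - F 0‖ := by
        rw [hFq, ← map_sub, hUn]
      have h5 := norm_sub_le_norm_sub_add_norm_sub (J.U (F j)) (F J.q) (F j)
      have h6 := Finset.sum_Ico_consecutive (fun k => ‖F (k + 1) - F k‖) (Nat.zero_le j) hj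
      rw [Finset.range_eq_Ico, ← h6]
      linarith
    refine (hρ (F j)).trans (le_trans ?_ hV)
    exact pow_le_pow_left₀ (norm_nonneg _) h1 2
  -- the energy
  have hE : T ≤ ∑ k ∈ Finset.range J.q, β k * ‖F (k + 1)‖ ^ 2 := by
    have h1 := J.energy x.2
    rw [Finset.sum_add_distrib, ← hT] at h1
    have h2 : -∑ k ∈ Finset.range J.q, β k * ‖F (k + 1)‖ ^ 2 ≤
        ∑ k ∈ Finset.range J.q, ⟪J.K k (J.A (k + 1) x), J.A (k + 1) (x : W × W)⟫_ℝ := by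
      rw [← Finset.sum_neg_distrib]
      refine Finset.sum_le_sum fun k hk => ?_
      rw [hFk]
      refine hpos k (Finset.mem_range.1 hk) _ fun i => ?_
      have := congrFun hx ⟨⟨k, Finset.mem_range.1 hk⟩, i⟩
      rw [hΦ] at this
      exact this
    linarith
  have hE2 : ρ * T ≤ b * (ℓ * T) := by
    have h1 : ρ * ∑ k ∈ Finset.range J.q, β k * ‖F (k + 1)‖ ^ 2 ≤ b * (ℓ * T) := by
      rw [hb, Finset.mul_sum, Finset.sum_mul]
      refine Finset.sum_le_sum fun k hk => ?_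
      have h2 := mul_le_mul_of_nonneg_left (hpt (k + 1) (Finset.mem_range.1 hk))
        (hβ k (Finset.mem_range.1 hk))
      linarith
    exact (mul_le_mul_of_nonneg_left hE hρ0.le).trans h1
  have hT1 : T = 0 := by
    by_contra hne
    have h1 : 0 < T := lt_of_le_of_ne hT0 (Ne.symm hne)
    have h2 := mul_lt_mul_of_pos_right hlt h1
    nlinarith
  have h0 := hpt 0 (Nat.zero_le _)
  rw [hT1, mul_zero] at h0
  have hF0 : F 0 = 0 := by
    by_contra hne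
    have := mul_pos hρ0 (pow_pos (norm_pos_iff.2 hne) 2)
    linarith
  have e4 := (Finset.sum_eq_zero_iff_of_nonneg (fun k hk => mul_nonneg
      (J.hL k (Finset.mem_range.1 hk)).le (sq_nonneg ‖J.B k (x : W × W)‖))).1
      (hT.symm.trans hT1)
  have hB0 : J.B 0 (x : W × W) = 0 := by
    have h1 := e4 0 (Finset.mem_range.2 J.hq)
    rcases mul_eq_zero.1 h1 with h5 | h5
    · exact absurd h5 (J.hL 0 J.hq).ne'
    · exact norm_eq_zero.1 (pow_eq_zero_iff two_ne_zero |>.1 h5)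
  apply Subtype.ext
  refine Prod.ext ?_ ?_
  · rw [← J.A0, ← hFk, hF0]; rfl
  · rw [← J.B0, hB0]; rfl

end Jo

end Pool.Agent.T2H44.IV
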