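import Pool.Agent.T2H44.IV.Geo
import Pool.Agent.T2H44.IV.Def
import Pool.Agent.TH318.IvJ

/-!
# The main theorem on focusing directions
-/

set_option autoImplicit false

open MeasureTheory Set Filter Topology
open scoped InnerProductSpace
open Pool.Agent.H721R2.Quart Pool.Agent.H721R2.Ivrii Pool.Agent.TH746 Pool.Agent.TH318.Iv

namespace Pool.Agent.T2H44.IV

section
variable {E : Type*} [NormedAddCommGroup E] [InnerProductSpace ℝ E] [FiniteDimensional ℝ E]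

/-- The condition on a trajectory. -/
def Bad (Ω : Set E) (g : E ≃ᵃⁱ[ℝ] E) (n : ℕ) (p u : ℕ → E) : Prop :=
  (∃ (r : ℕ → ℕ) (β : ℕ → ℝ),
    (∀ k < n, 0 ≤ β k ∧ FocLe Ω (p k) (u k) (r k) (β k)) ∧
    ((WeakTotal g n p u β ∧ ∑ k ∈ Finset.range n, r k < 2 * (Module.finrank ℝ E - 1)) ∨
      (Par g n ∧ (∀ k < n, β k = 0) ∧
        ∑ k ∈ Finset.range n, r k ≤ 2 * (Module.finrank ℝ E - 1)))) ∨
  (∃ (r : ℕ → ℕ) (v : ℕ) (w : Fin v → E),
    (∀ k < n, RankLe Ω (p k) (r k)) ∧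
    LinearIndependent ℝ w ∧
    (∀ i, ⟪u 0, w i⟫_ℝ = 0 ∧ transport u n (w i) = g.linearIsometryEquiv (w i)) ∧
    ∑ k ∈ Finset.range n, r k < 2 * (Module.finrank ℝ E - 1) + v)

theorem sum_nx (r : ℕ → ℕ) (n : ℕ) :
    ∑ k ∈ Finset.range n, r (nx n k) = ∑ k ∈ Finset.range n, r k := by
  cases n with
  | zero => simp
  | succ n =>
    rw [Finset.sum_range_succ, Finset.sum_range_succ']
    have h1 : nx (n + 1) n = 0 := if_neg (lt_irrefl _)
    rw [h1]
    congr 1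
    refine Finset.sum_congr rfl fun k hk => ?_
    have := Finset.mem_range.1 hk
    have h2 : nx (n + 1) k = k + 1 := if_pos (by omega)
    rw [h2]

theorem sum_nx_real (r : ℕ → ℝ) (n : ℕ) :
    ∑ k ∈ Finset.range n, r (nx n k) = ∑ k ∈ Finset.range n, r k := by
  cases n with
  | zero => simp
  | succ n =>
    rw [Finset.sum_range_succ, Finset.sum_range_succ']
    have h1 : nx (n + 1) n = 0 := if_neg (lt_irrefl _)
    rw [h1]
    congr 1
    refine Finset.sum_congr rfl fun k hk => ?_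
    have := Finset.mem_range.1 hk
    have h2 : nx (n + 1) k = k + 1 := if_pos (by omega)
    rw [h2]

theorem nx_lt {n k : ℕ} (hk : k < n) : nx n k < n := by
  unfold nx
  split_ifs <;> omega

/-- The outgoing direction points into the table. -/
theorem out_neg {Ω : Set E} {q v q' v' : E} (h : Step Ω q v q' v') {F : E → ℝ}
    (hF : LocalDef Ω q F) : ⟪gradient F q, v⟫_ℝ ≤ 0 := by
  by_contra hcon
  obtain ⟨t, ht, -, hin, -⟩ := h
  obtain ⟨s, hs1, hs2⟩ := ((leaves hF (not_le.1 hcon)).and (Ioo_mem_nhdsGT ht)).exists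
  exact hs1 (hin s hs2)

/-- The transport is the product of the reflections. -/
theorem transport_eq {u n : ℕ → E} {N : ℕ} (hn : ∀ k < N, ⟪n (k + 1), n (k + 1)⟫_ℝ = 1)
    (htr : ∀ k < N, ⟪n (k + 1), u k⟫_ℝ ≠ 0) (hu : ∀ k < N, u (k + 1) = rf (n (k + 1)) (u k))
    (y : E) : ∀ k ≤ N, transport u k y = RS n k y := by
  intro k
  induction k with
  | zero => intro _; rfl
  | succ k ih =>
    intro hk
    have h1 : u (k + 1) - u k = (-(2 * ⟪n (k + 1), u k⟫_ℝ)) • n (k + 1) := by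
      rw [hu k (by omega)]; unfold rf; module
    have h2 : ‖u (k + 1) - u k‖ ^ 2 = (2 * ⟪n (k + 1), u k⟫_ℝ) ^ 2 := by
      rw [h1, ← real_inner_self_eq_norm_sq, real_inner_smul_left, inner_smul_right,
        hn k (by omega)]
      ring
    have h3 := htr k (by omega)
    rw [RS_succ, ← ih (by omega)]
    change transport u k y - (2 * ⟪u (k + 1) - u k, transport u k y⟫_ℝ /
      ‖u (k + 1) - u k‖ ^ 2) • (u (k + 1) - u k) = _
    rw [h2, h1, real_inner_smul_left, smul_smul]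
    unfold rf
    congr 2
    field_simp

theorem rankLe_def {Ω : Set E} {q : E} {r : ℕ} (h : RankLe Ω q r) {F : E → ℝ}
    (hF : LocalDef Ω q F) : ∃ a : Fin r → E, ∀ w w', ⟪gradient F q, w⟫_ℝ = 0 →
      ⟪gradient F q, w'⟫_ℝ = 0 → (∀ i, ⟪a i, w⟫_ℝ = 0) →
      fderiv ℝ (fderiv ℝ F) q (w + w') (w + w') = fderiv ℝ (fderiv ℝ F) q w' w' := by
  obtain ⟨F', hF', a, h⟩ := h
  obtain ⟨l, hl, hg, hc⟩ := curv_rel hF hF'
  refine ⟨a, fun w w' hw hw' hi => ?_⟩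
  have k1 : ⟪gradient F' q, w⟫_ℝ = 0 := by rw [hg, real_inner_smul_left, hw, mul_zero]
  have k2 : ⟪gradient F' q, w'⟫_ℝ = 0 := by rw [hg, real_inner_smul_left, hw', mul_zero]
  have h1 := h w w' k1 k2 hi
  have h2 := h w w k1 k1 hi
  have hs : IsSymmSndFDerivAt ℝ F' q :=
    hF'.smooth.isSymmSndFDerivAt (by rw [minSmoothness_of_isRCLikeNormedField]; norm_num)
  have h3 : fderiv ℝ (fderiv ℝ F') q w' w = 0 := by rw [hs.eq]; exact h1
  have h4 : ⟪gradient F q, w + w'⟫_ℝ = 0 := by rw [inner_add_right, hw, hw', add_zero]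
  have h5 := hc (w + w') h4
  have h6 := hc w' hw'
  have h7 : fderiv ℝ (fderiv ℝ F') q (w + w') (w + w') = fderiv ℝ (fderiv ℝ F') q w' w' := by
    simp only [map_add, _root_.add_apply, h1, h2, h3]
    ring
  rw [h5, h6] at h7
  exact mul_left_cancel₀ hl.ne' h7

end

section
variable {E Z : Type*} [NormedAddCommGroup E] [InnerProductSpace ℝ E] [FiniteDimensional ℝ E]
  [NormedAddCommGroup Z] [NormedSpace ℝ Z]

/-- At a point where all variations close the trajectory is not bad. -/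
theorem not_bad {Ω : Set E} (C : Chn E Z) {z : Z} (hz : z ∈ C.U)
    (he : C.e C.N z = C.G (C.e 0 z)) (hn : C.n C.N z = C.G (C.n 0 z))
    (hX : ∀ ζ, fderiv ℝ (C.x C.N) z ζ = C.G (fderiv ℝ (C.x 0) z ζ))
    (hE : ∀ ζ, fderiv ℝ (C.e C.N) z ζ = C.G (fderiv ℝ (C.e 0) z ζ))
    (hn' : ∀ ζ, fderiv ℝ (C.n C.N) z ζ = C.G (fderiv ℝ (C.n 0) z ζ))
    {p u : ℕ → E} (hor : OrbitMod Ω C.g C.N p u)
    (hpu : ∀ k ≤ C.N, C.x k z = p k ∧ C.e k z = u k)
    (hF : ∀ k < C.N, ∃ F : E → ℝ, LocalDef Ω (p k) F ∧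
            C.n k z = dir (gradient F (p k)) ∧ ∀ a, ⟪C.n k z, a⟫_ℝ = 0 → ⟪C.S k z a, a⟫_ℝ =
              -(‖gradient F (p k)‖⁻¹ * fderiv ℝ (fderiv ℝ F) (p k) a a)) :
    ¬ Bad Ω C.g C.N p u := by
  classical
  obtain ⟨J, hJq, hJL, hJU, hJT⟩ := unf_jc C hz he hn hX hE hn'
  have hN := C.hN
  choose! T hT1 hT2 hT3 using hJT
  choose! F hF1 hF2 hF3 using hF
  have hfr : Module.finrank ℝ (ℝ ∙ C.e 0 z)ᗮ + 1 = Module.finrank ℝ E := by
    have h1 := Submodule.finrank_add_finrank_orthogonal (ℝ ∙ (C.e 0 z))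
    have h2 : Module.finrank ℝ (ℝ ∙ (C.e 0 z)) = 1 := by
      refine finrank_span_singleton fun h0 => ?_
      have h6 := C.ee 0 C.hN z hz
      rw [h0, inner_zero_left] at h6
      exact zero_ne_one h6
    omega
  obtain ⟨s, hs⟩ : ∃ s, s = Module.finrank ℝ (ℝ ∙ C.e 0 z)ᗮ := ⟨_, rfl⟩
  have hs1 : Module.finrank ℝ E - 1 = s := by omega
  have hgpos : ∀ b < C.N, 0 < ‖gradient (F b) (p b)‖ := fun b hb => norm_pos_iff.2 (hF1 b hb).grad
  have hnF : ∀ b < C.N, ∀ w, ⟪C.n b z, w⟫_ℝ = ‖gradient (F b) (p b)‖⁻¹ *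
      ⟪gradient (F b) (p b), w⟫_ℝ := by
    intro b hb w
    rw [hF2 b hb]; unfold dir
    rw [real_inner_smul_left]
  have hng : ∀ b < C.N, ∀ w, ⟪C.n b z, w⟫_ℝ = 0 → ⟪gradient (F b) (p b), w⟫_ℝ = 0 := by
    intro b hb w hw
    rw [hnF b hb] at hw
    exact (mul_eq_zero.1 hw).resolve_left (inv_ne_zero (hgpos b hb).ne')
  have hneg : ∀ b < C.N, ⟪C.n b z, C.e b z⟫_ℝ < 0 := by
    intro b hb
    refine lt_of_le_of_ne ?_ (C.tr b hb z hz)
    rw [hnF b hb, (hpu b hb.le).2]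
    exact mul_nonpos_of_nonneg_of_nonpos (inv_nonneg.2 (norm_nonneg _))
      (out_neg (hor.step b) (hF1 b hb))
  -- the curvature
  have hKy : ∀ k < C.N, ∀ y, ⟪J.K k y, y⟫_ℝ = -(-2 * ⟪C.n (nx C.N k) z, C.e (nx C.N k) z⟫_ℝ *
      (‖gradient (F (nx C.N k)) (p (nx C.N k))‖⁻¹ *
        fderiv ℝ (fderiv ℝ (F (nx C.N k))) (p (nx C.N k)) (T k y) (T k y))) := by
    intro k hk y
    rw [hT3 k hk, hF3 _ (nx_lt hk) _ (hT1 k hk y)]
    ring
  -- the holonomy
  have nn : ∀ k < C.N, ⟪C.n (k + 1) z, C.n (k + 1) z⟫_ℝ = 1 := by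
    intro k hk
    rcases Nat.lt_or_ge (k + 1) C.N with h | h
    · exact C.nn (k + 1) h z hz
    · have h2 : k + 1 = C.N := by omega
      rw [h2, hn, C.G_iso]
      exact C.nn 0 hN z hz
  have htr : ∀ k < C.N, ⟪C.n (k + 1) z, C.e k z⟫_ℝ ≠ 0 := by
    intro k hk h0
    have h1 : ⟪C.n (k + 1) z, C.e (k + 1) z⟫_ℝ = 0 := by
      rw [C.refl k hk z]; unfold rf; rw [inner_sub_right, inner_smul_right, h0]; simp
    rcases Nat.lt_or_ge (k + 1) C.N with h | h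
    · exact C.tr (k + 1) h z hz h1
    · have h2 : k + 1 = C.N := by omega
      rw [h2, hn, he, C.G_iso] at h1
      exact C.tr 0 hN z hz h1
  have htrans : ∀ y, transport u C.N y = RS (fun k => C.n k z) C.N y := by
    intro y
    refine transport_eq (n := fun k => C.n k z) (N := C.N) nn (fun k hk => ?_) (fun k hk => ?_) y
      C.N le_rfl
    · rw [← (hpu k hk.le).2]; exact htr k hk
    · rw [← (hpu k hk.le).2, ← (hpu (k + 1) hk).2]; exact C.refl k hk z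
  have RI := RR_inner (n := fun k => C.n k z) nn
  have hGg : ∀ y, C.g.linearIsometryEquiv y = C.G y := fun y => rfl
  have hWu : ∀ y : (ℝ ∙ C.e 0 z)ᗮ, ⟪u 0, (y : E)⟫_ℝ = 0 := by
    intro y
    rw [← (hpu 0 hN.le).2]
    exact Submodule.mem_orthogonal_singleton_iff_inner_right.1 y.2
  rintro (⟨r, β, hr, hsum⟩ | ⟨r, v, w, hr, hw, hfix, hsum⟩)
  · have h1 : ∀ b < C.N, ∃ a : Fin (r b) → E, ∀ w, ⟪gradient (F b) (p b), w⟫_ℝ = 0 →
      (∀ i, ⟪a i, w⟫_ℝ = 0) → 2 * |⟪gradient (F b) (p b), u b⟫_ℝ| *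
        fderiv ℝ (fderiv ℝ (F b)) (p b) w w ≤
      β b * ‖gradient (F b) (p b)‖ ^ 2 * (‖w‖ ^ 2 - ⟪u b, w⟫_ℝ ^ 2) :=
      fun b hb => focLe_def (hr b hb).2 (hF1 b hb)
    choose! a ha using h1
    have hpos : ∀ k < J.q, ∀ y, (∀ i, ⟪LinearMap.adjoint (T k) (a (nx C.N k) i), y⟫_ℝ = 0) →
        -(β (nx C.N k) * ‖y‖ ^ 2) ≤ ⟪J.K k y, y⟫_ℝ := by
      intro k hk y hy
      rw [hJq] at hk
      have hb := nx_lt hk
      rw [hKy k hk]
      have h3 := ha _ hb (T k y) (hng _ hb _ (hT1 k hk y)) fun i => by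
        have := hy i
        rwa [LinearMap.adjoint_inner_left] at this
      have h4 := hgpos _ hb
      have h5 := hneg _ hb
      rw [← (hpu _ hb.le).2, ← hT2 k hk] at h3
      have h6 : |⟪gradient (F (nx C.N k)) (p (nx C.N k)), C.e (nx C.N k) z⟫_ℝ| =
          -(‖gradient (F (nx C.N k)) (p (nx C.N k))‖ *
            ⟪C.n (nx C.N k) z, C.e (nx C.N k) z⟫_ℝ) := by
        have h7 : ⟪gradient (F (nx C.N k)) (p (nx C.N k)), C.e (nx C.N k) z⟫_ℝ =
            ‖gradient (F (nx C.N k)) (p (nx C.N k))‖ *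
            ⟪C.n (nx C.N k) z, C.e (nx C.N k) z⟫_ℝ := by
          rw [hnF _ hb, mul_inv_cancel_left₀ h4.ne']
        rw [h7, abs_of_neg (mul_neg_of_pos_of_neg h4 h5)]
      rw [h6] at h3
      rw [neg_le_neg_iff]
      refine le_of_mul_le_mul_left (a := ‖gradient (F (nx C.N k)) (p (nx C.N k))‖ ^ 2) ?_
        (pow_pos h4 2)
      refine le_trans (le_of_eq ?_) (h3.trans (le_of_eq ?_))
      · field_simp
      · ring
    have hpos0 : (∀ k < C.N, β k = 0) → ∀ k < J.q, ∀ y,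
        (∀ i, ⟪LinearMap.adjoint (T k) (a (nx C.N k) i), y⟫_ℝ = 0) → 0 ≤ ⟪J.K k y, y⟫_ℝ := by
      intro h0 k hk y hy
      have h2 := hpos k hk y hy
      rw [hJq] at hk
      rw [h0 _ (nx_lt hk), zero_mul, neg_zero] at h2
      exact h2
    rcases hsum with ⟨h0 | ⟨ρ, hρ, hlt⟩, hsum⟩ | ⟨hpar, h0, hsum⟩
    · have h2 := J.foc (fun k => r (nx C.N k))
        (fun k i => LinearMap.adjoint (T k) (a (nx C.N k) i)) (hpos0 h0)
      rw [hJq, sum_nx, ← hs] at h2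
      omega
    · have h2 := J.foc_weak (fun k => r (nx C.N k))
        (fun k i => LinearMap.adjoint (T k) (a (nx C.N k) i)) (fun k => β (nx C.N k)) ρ
        (fun k hk => (hr _ (nx_lt (by rwa [hJq] at hk))).1) (fun y => by
          have h3 := hρ y (hWu y)
          have h4 : ‖J.U y - y‖ ^ 2 = ‖transport u C.N y - C.g.linearIsometryEquiv y‖ ^ 2 := by
            rw [htrans, hGg, ← real_inner_self_eq_norm_sq, ← real_inner_self_eq_norm_sq,
              ← RI C.N le_rfl, map_sub, RR_RS nn C.N le_rfl, ← hJU, Submodule.coe_inner,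
              Submodule.coe_sub, ← inner_neg_neg, neg_sub]
          rw [h4]
          exact h3) (by
          rw [hJq, sum_nx_real]
          refine lt_of_le_of_lt (le_of_eq ?_) hlt
          congr 1
          refine Finset.sum_congr rfl fun k hk => ?_
          have hk' := Finset.mem_range.1 hk
          rw [hJL k hk', ← (hpu k hk'.le).1, ← (hpu (k + 1) hk').1, C.step k hk' z,
            add_sub_cancel_left, norm_smul]
          have h5 : ‖C.e k z‖ = 1 := by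
            have h6 := C.ee k hk' z hz
            rw [real_inner_self_eq_norm_sq] at h6
            nlinarith [norm_nonneg (C.e k z)]
          rw [h5, mul_one, Real.norm_eq_abs, abs_of_pos (C.Lpos k hk' z hz)]) hpos
      rw [hJq, sum_nx, ← hs] at h2
      omega
    · obtain ⟨Y, hY1, hY2⟩ := J.exists_neg (by
        have hUe : (RR (fun k => C.n k z) C.N ∘ₗ (C.G : E →ₗ[ℝ] E)) (C.e 0 z) = C.e 0 z := by
          change RR (fun k => C.n k z) C.N (C.G (C.e 0 z)) = C.e 0 z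
          rw [← he]
          exact RR_e (n := fun k => C.n k z) (e := fun k => C.e k z) nn
            (fun k hk => C.refl k hk z) C.N le_rfl
        rw [det_perp hUe J.U (fun δ => hJU δ), LinearMap.det_comp, det_RR nn C.N le_rfl]
        have h3 : LinearMap.det (C.G : E →ₗ[ℝ] E) * (-1) ^ C.N = (-1) ^ Module.finrank ℝ E :=
          hpar
        rw [← hs, mul_comm ((-1 : ℝ) ^ C.N), h3, ← pow_add]
        have h4 : s + Module.finrank ℝ E = 2 * s + 1 := by omega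
        rw [h4, pow_succ, pow_mul]
        norm_num)
      have h2 := J.foc_neg (fun k => r (nx C.N k))
        (fun k i => LinearMap.adjoint (T k) (a (nx C.N k) i)) (hpos0 h0) Y hY1 hY2
      rw [hJq, sum_nx, ← hs] at h2
      omega
  · have h1 : ∀ b < C.N, ∃ a : Fin (r b) → E, ∀ w w', ⟪gradient (F b) (p b), w⟫_ℝ = 0 →
      ⟪gradient (F b) (p b), w'⟫_ℝ = 0 → (∀ i, ⟪a i, w⟫_ℝ = 0) →
      fderiv ℝ (fderiv ℝ (F b)) (p b) (w + w') (w + w') =
        fderiv ℝ (fderiv ℝ (F b)) (p b) w' w' :=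
      fun b hb => rankLe_def (hr b hb) (hF1 b hb)
    choose! a ha using h1
    have hKr : ∀ k < C.N, Module.finrank ℝ (LinearMap.range (J.K k)) ≤ r (nx C.N k) := by
      intro k hk
      have hb := nx_lt hk
      obtain ⟨Φ, hΦ⟩ : ∃ Φ : (ℝ ∙ C.e 0 z)ᗮ →ₗ[ℝ] (Fin (r (nx C.N k)) → ℝ),
          ∀ y i, Φ y i = ⟪a (nx C.N k) i, T k y⟫_ℝ :=
        ⟨LinearMap.pi fun i => (innerₛₗ ℝ (a (nx C.N k) i)) ∘ₗ T k, fun y i => rfl⟩
      have hker : LinearMap.ker Φ ≤ LinearMap.ker (J.K k) := by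
        intro y hy
        have hy' : ∀ i, ⟪a (nx C.N k) i, T k y⟫_ℝ = 0 := by
          intro i
          rw [← hΦ, LinearMap.mem_ker.1 hy]; rfl
        rw [LinearMap.mem_ker]
        have hS : ∀ w', ⟪C.n (nx C.N k) z, w'⟫_ℝ = 0 →
            ⟪C.S (nx C.N k) z (T k y + w'), T k y + w'⟫_ℝ = ⟪C.S (nx C.N k) z w', w'⟫_ℝ := by
          intro w' hw'
          rw [hF3 _ hb _ (by rw [inner_add_right, hT1 k hk, hw', add_zero]), hF3 _ hb _ hw',
            ha _ hb (T k y) w' (hng _ hb _ (hT1 k hk y)) (hng _ hb _ hw') hy']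
        have hS0 : ⟪C.S (nx C.N k) z (T k y), T k y⟫_ℝ = 0 := by
          have := hS 0 (inner_zero_right _)
          rw [add_zero, map_zero, inner_zero_left] at this
          exact this
        have hS1 : ∀ w', ⟪C.n (nx C.N k) z, w'⟫_ℝ = 0 →
            ⟪C.S (nx C.N k) z (T k y), w'⟫_ℝ = 0 := by
          intro w' hw'
          have h2 := hS w' hw'
          rw [map_add, inner_add_left, inner_add_right, inner_add_right, hS0,
            C.sym _ hb z hz w' (T k y), real_inner_comm (C.S (nx C.N k) z (T k y)) w'] at h2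
          linarith
        have h2 : ⟪J.K k y, J.K k y⟫_ℝ = 0 := by
          rw [hT3 k hk, hS1 _ (hT1 k hk _), mul_zero]
        exact inner_self_eq_zero.1 h2
      have h2 := Submodule.finrank_mono hker
      have h3 := Φ.finrank_range_add_finrank_ker
      have h4 := (J.K k).finrank_range_add_finrank_ker
      have h5 := Submodule.finrank_le (LinearMap.range Φ)
      rw [Module.finrank_fintype_fun_eq_card, Fintype.card_fin] at h5
      omega
    have hwW : ∀ i, w i ∈ (ℝ ∙ C.e 0 z)ᗮ := by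
      intro i
      rw [Submodule.mem_orthogonal_singleton_iff_inner_right, (hpu 0 hN.le).2]
      exact (hfix i).1
    have h2 := J.rank (v := v) (fun i => (⟨w i, hwW i⟩ : (ℝ ∙ C.e 0 z)ᗮ)) (by
      apply LinearIndependent.of_comp (ℝ ∙ C.e 0 z)ᗮ.subtype
      exact hw) (fun i => by
      apply Subtype.ext
      rw [hJU]
      change RR (fun k => C.n k z) C.N (C.G (w i)) = w i
      rw [← hGg, ← (hfix i).2, htrans, RR_RS nn C.N le_rfl])
    have h3 : ∑ k : Fin J.q, Module.finrank ℝ (LinearMap.range (J.K k)) ≤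
        ∑ k ∈ Finset.range J.q, r (nx C.N k) := by
      rw [Finset.sum_range]
      exact Finset.sum_le_sum fun k _ => hKr k (by rw [← hJq]; exact k.2)
    have h4 : ∑ k ∈ Finset.range J.q, r (nx C.N k) = ∑ k ∈ Finset.range C.N, r k := by
      rw [hJq, sum_nx]
    rw [h4] at h3
    rw [← hs] at h2
    omega

end

section
variable {E : Type*} [NormedAddCommGroup E] [InnerProductSpace ℝ E] [FiniteDimensional ℝ E]
variable [MeasurableSpace E] [BorelSpace E]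

theorem local_null {Ω : Set E} {g : E ≃ᵃⁱ[ℝ] E}
    (hg : g ⁻¹' Ω = Ω) {n : ℕ} {p u : ℕ → E} (h : OrbitMod Ω g n p u) :
    ∃ Y : Set (E × E), μH[(2 * Module.finrank ℝ E - 2 : ℕ)] Y = 0 ∧
      ∀ᶠ w : (ℕ → E) × (ℕ → E) in 𝓝 (p, u), (OrbitMod Ω g n w.1 w.2 ∧
        Bad Ω g n w.1 w.2) → (w.1 0, w.2 0) ∈ Y := by
  obtain ⟨a, b, C, ha, hb, hCN, hCg, hLip, hev⟩ := exists_chn2 hg h
  have hfr : Module.finrank ℝ ((ℝ ∙ a)ᗮ × (ℝ ∙ b)ᗮ) = 2 * Module.finrank ℝ E - 2 := by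
    have h1 := Submodule.finrank_add_finrank_orthogonal (ℝ ∙ a)
    have h2 := Submodule.finrank_add_finrank_orthogonal (ℝ ∙ b)
    rw [finrank_span_singleton ha] at h1
    rw [finrank_span_singleton hb] at h2
    rw [Module.finrank_prod]
    omega
  obtain ⟨B, hBA, hBm, hBn, hBg⟩ := C.exists_good
    (μH[Module.finrank ℝ ((ℝ ∙ a)ᗮ × (ℝ ∙ b)ᗮ)]) univ
  rw [hfr] at hBn
  obtain ⟨K, hK⟩ := hLip 0 (Nat.zero_le _)
  refine ⟨(fun z => (C.x 0 z, C.e 0 z)) '' (C.A univ \ B), ?_, ?_⟩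
  · have hK' : LipschitzOnWith K (fun z => (C.x 0 z, C.e 0 z)) (C.A univ \ B) :=
      hK.mono fun z hz => hz.1.1
    have h1 := hK'.hausdorffMeasure_image_le
      (d := ((2 * Module.finrank ℝ E - 2 : ℕ) : ℝ)) (Nat.cast_nonneg _)
    rw [hBn, mul_zero] at h1
    exact nonpos_iff_eq_zero.mp h1
  · filter_upwards [hev] with w hw hor
    obtain ⟨z, hzU, hz1, hz2, hz3⟩ := hw hor.1
    refine ⟨z, ?_, ?_⟩
    swap
    · simp only
      rw [(hz1 0 (Nat.zero_le _)).1, (hz1 0 (Nat.zero_le _)).2]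
    have hzA : z ∈ C.A univ := by
      refine ⟨hzU, ?_, ?_, hz2, fun k _ hk => absurd (mem_univ k) hk⟩
      · rw [hCN, (hz1 n le_rfl).1, (hz1 0 (Nat.zero_le _)).1, hCg]
        have := hor.1.perp 0
        rwa [zero_add] at this
      · rw [hCN, (hz1 n le_rfl).2, (hz1 0 (Nat.zero_le _)).2, C.G_apply, hCg]
        have := hor.1.peru 0
        rwa [zero_add] at this
    refine ⟨hzA, fun hzB => ?_⟩
    subst hCN
    subst hCg
    exact not_bad C hzU hzA.2.2.1 hzA.2.2.2.1 (hBg z hzB).1 (hBg z hzB).2.1 (hBg z hzB).2.2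
      hor.1 hz1 hz3 hor.2

theorem bad_null {Ω : Set E} {g : E ≃ᵃⁱ[ℝ] E} (hg : g ⁻¹' Ω = Ω) (n : ℕ) :
    μH[(2 * Module.finrank ℝ E - 2 : ℕ)] ((fun w : (ℕ → E) × (ℕ → E) => (w.1 0, w.2 0)) ''
      {w | OrbitMod Ω g n w.1 w.2 ∧ Bad Ω g n w.1 w.2}) = 0 := by
  apply null_of_locally_null
  rintro ⟨p, u⟩ ⟨h, -⟩
  exact local_null hg h

theorem all_null (Ω : Set E) (Γ : Set (E ≃ᵃⁱ[ℝ] E))
    (hΓ : Γ.Countable) (hinv : ∀ g ∈ Γ, g ⁻¹' Ω = Ω) (P : Set (E × E))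
    (hP : ∀ z ∈ P, ∃ g ∈ Γ, ∃ (n : ℕ) (p u : ℕ → E), OrbitMod Ω g n p u ∧ (p 0, u 0) = z ∧
      Bad Ω g n p u) :
    μH[(2 * Module.finrank ℝ E - 2 : ℕ)] P = 0 := by
  refine measure_mono_null (t := ⋃ g ∈ Γ, ⋃ n : ℕ,
    ((fun w : (ℕ → E) × (ℕ → E) => (w.1 0, w.2 0)) ''
      {w | OrbitMod Ω g n w.1 w.2 ∧ Bad Ω g n w.1 w.2})) ?_ ?_
  · intro z hz
    obtain ⟨g, hg, n, p, u, h1, h2, h3⟩ := hP z hz
    exact mem_iUnion₂.2 ⟨g, hg, mem_iUnion.2 ⟨n, (p, u), ⟨h1, h3⟩, h2⟩⟩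
  · exact (measure_biUnion_null_iff hΓ).2 fun g hg => measure_iUnion_null fun n =>
      bad_null (hinv g hg) n

/-- **Focusing directions.** -/
theorem main_dir (Ω : Set E) (Γ : Set (E ≃ᵃⁱ[ℝ] E))
    (hΓ : Γ.Countable) (hinv : ∀ g ∈ Γ, g ⁻¹' Ω = Ω) :
    μH[(2 * Module.finrank ℝ E - 2 : ℕ)] (FewDir Γ Ω) = 0 := by
  refine all_null Ω Γ hΓ hinv _ ?_
  rintro z ⟨g, hg, n, p, u, r, β, h1, h2, h3, h4⟩
  exact ⟨g, hg, n, p, u, h1, h2, Or.inl ⟨r, β, h3, h4⟩⟩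

/-- **The total rank.** -/
theorem main_rank (Ω : Set E) (Γ : Set (E ≃ᵃⁱ[ℝ] E))
    (hΓ : Γ.Countable) (hinv : ∀ g ∈ Γ, g ⁻¹' Ω = Ω) :
    μH[(2 * Module.finrank ℝ E - 2 : ℕ)] (LowRank Γ Ω) = 0 := by
  refine all_null Ω Γ hΓ hinv _ ?_
  rintro z ⟨g, hg, n, p, u, r, v, w, h1, h2, h3, h4, h5, h6⟩
  exact ⟨g, hg, n, p, u, h1, h2, Or.inr ⟨r, v, w, h3, h4, h5, h6⟩⟩

end

end Pool.Agent.T2H44.IV
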