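import Pool.Agent.T2H44.IV.Main
import Pool.Agent.T2H44.IV.Dim

/-!
# The dimension of the exceptional set
-/

set_option autoImplicit false

open MeasureTheory Set Filter Topology
open scoped InnerProductSpace ENNReal
open Pool.Agent.H721R2.Quart Pool.Agent.H721R2.Ivrii Pool.Agent.TH746 Pool.Agent.TH318.Iv

namespace Pool.Agent.T2H44.IV

/-- The dimension of a set which is locally small. -/
theorem dim_of_local {X Y : Type*} [TopologicalSpace X] [SecondCountableTopology X]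
    [EMetricSpace Y] (D : ℝ≥0∞) (π : X → Y) (W : Set X)
    (h : ∀ w ∈ W, ∃ Z : Set Y, dimH Z ≤ D ∧ ∀ᶠ w' in 𝓝 w, w' ∈ W → π w' ∈ Z) :
    dimH (π '' W) ≤ D := by
  classical
  choose! Z hZ hZ' using h
  obtain ⟨t, htW, htc, hcov⟩ := TopologicalSpace.countable_cover_nhdsWithin
    (f := fun w => {w' | w' ∈ W → π w' ∈ Z w}) (s := W)
    (fun w hw => mem_nhdsWithin_of_mem_nhds (hZ' w hw))
  refine (dimH_mono (t := ⋃ w ∈ t, Z w) ?_).trans ?_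
  · rintro _ ⟨w, hw, rfl⟩
    obtain ⟨w0, hw0, h1⟩ := mem_iUnion₂.1 (hcov hw)
    exact mem_iUnion₂.2 ⟨w0, hw0, h1 hw⟩
  · rw [dimH_bUnion htc]
    exact iSup₂_le fun w hw => hZ w (htW hw)

section
variable {E Z : Type*} [NormedAddCommGroup E] [InnerProductSpace ℝ E] [FiniteDimensional ℝ E]
  [NormedAddCommGroup Z] [NormedSpace ℝ Z]

/-- The failure of the trajectory to close. -/
noncomputable def gap (C : Chn E Z) (z : Z) : E × E × E :=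
  (C.x C.N z - C.g (C.x 0 z), C.e C.N z - C.G (C.e 0 z), C.n C.N z - C.G (C.n 0 z))

theorem gap_diff (C : Chn E Z) {z : Z} (hz : z ∈ C.U) : HasFDerivAt (gap C)
    ((fderiv ℝ (C.x C.N) z - C.G.comp (fderiv ℝ (C.x 0) z)).prod
      ((fderiv ℝ (C.e C.N) z - C.G.comp (fderiv ℝ (C.e 0) z)).prod
        (fderiv ℝ (C.n C.N) z - C.G.comp (fderiv ℝ (C.n 0) z)))) z := by
  have hg : ∀ y, C.g y = C.G y + C.g 0 := by
    intro y
    have h1 := C.g.map_vadd 0 y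
    simp only [vadd_eq_add, add_zero] at h1
    exact h1
  have h1 : HasFDerivAt (fun z => C.g (C.x 0 z)) (C.G.comp (fderiv ℝ (C.x 0) z)) z := by
    have h2 : (fun z => C.g (C.x 0 z)) = fun z => C.G (C.x 0 z) + C.g 0 := by
      funext z; exact hg _
    rw [h2]
    exact (C.G.hasFDerivAt.comp z (C.dx 0 (Nat.zero_le _) z hz).hasFDerivAt).add_const _
  refine HasFDerivAt.prodMk ((C.dx C.N le_rfl z hz).hasFDerivAt.sub h1)
    (HasFDerivAt.prodMk ((C.de C.N le_rfl z hz).hasFDerivAt.sub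
      (C.G.hasFDerivAt.comp z (C.de 0 (Nat.zero_le _) z hz).hasFDerivAt))
      ((C.dn C.N le_rfl z hz).hasFDerivAt.sub
      (C.G.hasFDerivAt.comp z (C.dn 0 (Nat.zero_le _) z hz).hasFDerivAt)))

theorem gap_ker (C : Chn E Z) {z : Z} (hz : z ∈ C.U) {ζ : Z} (h : fderiv ℝ (gap C) z ζ = 0) :
    fderiv ℝ (C.x C.N) z ζ = C.G (fderiv ℝ (C.x 0) z ζ) ∧
    fderiv ℝ (C.e C.N) z ζ = C.G (fderiv ℝ (C.e 0) z ζ) ∧
    fderiv ℝ (C.n C.N) z ζ = C.G (fderiv ℝ (C.n 0) z ζ) := by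
  rw [(gap_diff C hz).fderiv] at h
  have h1 := congrArg Prod.fst h
  have h2 := congrArg (fun p : E × E × E => p.2.1) h
  have h3 := congrArg (fun p : E × E × E => p.2.2) h
  exact ⟨sub_eq_zero.1 h1, sub_eq_zero.1 h2, sub_eq_zero.1 h3⟩

theorem gap_zero (C : Chn E Z) {z : Z} (hz : z ∈ C.A univ) : gap C z = 0 := by
  unfold gap
  rw [hz.2.1, hz.2.2.1, hz.2.2.2.1]
  simp

/-- If there is a variation which is not closed, the kernel is small. -/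
theorem gap_finrank [FiniteDimensional ℝ Z] (C : Chn E Z) {z : Z} {m : ℕ}
    (hm : Module.finrank ℝ Z = m + 1) (h : ¬ ∀ ζ, fderiv ℝ (gap C) z ζ = 0) :
    Module.finrank ℝ (LinearMap.ker (fderiv ℝ (gap C) z : Z →ₗ[ℝ] E × E × E)) ≤ m := by
  have h1 := Submodule.finrank_lt (s := LinearMap.ker (fderiv ℝ (gap C) z : Z →ₗ[ℝ] E × E × E))
    (fun h2 => h fun ζ => LinearMap.mem_ker.1 (h2 ▸ Submodule.mem_top : ζ ∈ LinearMap.ker
      (fderiv ℝ (gap C) z : Z →ₗ[ℝ] E × E × E)))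
  omega

end

section
variable {E : Type*} [NormedAddCommGroup E] [InnerProductSpace ℝ E] [FiniteDimensional ℝ E]

theorem local_dim (hd : 2 ≤ Module.finrank ℝ E) {Ω : Set E} {g : E ≃ᵃⁱ[ℝ] E}
    (hg : g ⁻¹' Ω = Ω) {n : ℕ} {p u : ℕ → E} (h : OrbitMod Ω g n p u) :
    ∃ Y : Set (E × E), dimH Y ≤ ((2 * Module.finrank ℝ E - 3 : ℕ) : ℝ≥0∞) ∧
      ∀ᶠ w : (ℕ → E) × (ℕ → E) in 𝓝 (p, u), (OrbitMod Ω g n w.1 w.2 ∧
        Bad Ω g n w.1 w.2) → (w.1 0, w.2 0) ∈ Y := by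
  obtain ⟨a, b, C, ha, hb, hCN, hCg, hLip, hev⟩ := exists_chn2 hg h
  have hfr : Module.finrank ℝ ((ℝ ∙ a)ᗮ × (ℝ ∙ b)ᗮ) = (2 * Module.finrank ℝ E - 3) + 1 := by
    have h1 := Submodule.finrank_add_finrank_orthogonal (ℝ ∙ a)
    have h2 := Submodule.finrank_add_finrank_orthogonal (ℝ ∙ b)
    rw [finrank_span_singleton ha] at h1
    rw [finrank_span_singleton hb] at h2
    rw [Module.finrank_prod]
    omega
  obtain ⟨K, hK⟩ := hLip 0 (Nat.zero_le _)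
  obtain ⟨B, hB⟩ : ∃ B, B = {z | z ∈ C.A univ ∧ Module.finrank ℝ
    (LinearMap.ker (fderiv ℝ (gap C) z : ((ℝ ∙ a)ᗮ × (ℝ ∙ b)ᗮ) →ₗ[ℝ] E × E × E)) ≤
      2 * Module.finrank ℝ E - 3} := ⟨_, rfl⟩
  have hBd : dimH B ≤ ((2 * Module.finrank ℝ E - 3 : ℕ) : ℝ≥0∞) := by
    rw [hB]
    exact dimH_ker (fun z hz => (gap_diff C hz.1).differentiableAt) (fun z hz => gap_zero C hz) _
  refine ⟨(fun z => (C.x 0 z, C.e 0 z)) '' B, ?_, ?_⟩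
  · have hK' : LipschitzOnWith K (fun z => (C.x 0 z, C.e 0 z)) B :=
      hK.mono fun z hz => by rw [hB] at hz; exact hz.1.1
    exact hK'.dimH_image_le.trans hBd
  · filter_upwards [hev] with w hw hor
    obtain ⟨z, hzU, hz1, hz2, hz3⟩ := hw hor.1
    refine ⟨z, ?_, ?_⟩
    swap
    · simp only
      rw [(hz1 0 (Nat.zero_le _)).1, (hz1 0 (Nat.zero_le _)).2]
    have hzA : z ∈ C.A univ := by
      refine ⟨hzU, ?_, ?_, hz2, fun k _ hk => absurd (mem_univ k) hk⟩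
      · rw [hCN, (hz1 n le_rfl).1, (hz1 0 (Nat.zero_le _)).1, hCg]
        have := hor.1.perp 0
        rwa [zero_add] at this
      · rw [hCN, (hz1 n le_rfl).2, (hz1 0 (Nat.zero_le _)).2, C.G_apply, hCg]
        have := hor.1.peru 0
        rwa [zero_add] at this
    rw [hB]
    refine ⟨hzA, gap_finrank C hfr fun hall => ?_⟩
    subst hCN
    subst hCg
    exact not_bad C hzU hzA.2.2.1 hzA.2.2.2.1 (fun ζ => (gap_ker C hzU (hall ζ)).1)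
      (fun ζ => (gap_ker C hzU (hall ζ)).2.1) (fun ζ => (gap_ker C hzU (hall ζ)).2.2)
      hor.1 hz1 hz3 hor.2

theorem bad_dim (hd : 2 ≤ Module.finrank ℝ E) {Ω : Set E} {g : E ≃ᵃⁱ[ℝ] E} (hg : g ⁻¹' Ω = Ω)
    (n : ℕ) : dimH ((fun w : (ℕ → E) × (ℕ → E) => (w.1 0, w.2 0)) ''
      {w | OrbitMod Ω g n w.1 w.2 ∧ Bad Ω g n w.1 w.2}) ≤
        ((2 * Module.finrank ℝ E - 3 : ℕ) : ℝ≥0∞) := by
  apply dim_of_local
  rintro ⟨p, u⟩ ⟨h, -⟩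
  exact local_dim hd hg h

theorem all_dim (hd : 2 ≤ Module.finrank ℝ E) (Ω : Set E) (Γ : Set (E ≃ᵃⁱ[ℝ] E))
    (hΓ : Γ.Countable) (hinv : ∀ g ∈ Γ, g ⁻¹' Ω = Ω) (P : Set (E × E))
    (hP : ∀ z ∈ P, ∃ g ∈ Γ, ∃ (n : ℕ) (p u : ℕ → E), OrbitMod Ω g n p u ∧ (p 0, u 0) = z ∧
      Bad Ω g n p u) :
    dimH P ≤ ((2 * Module.finrank ℝ E - 3 : ℕ) : ℝ≥0∞) := by
  refine (dimH_mono (t := ⋃ g ∈ Γ, ⋃ n : ℕ,
    ((fun w : (ℕ → E) × (ℕ → E) => (w.1 0, w.2 0)) ''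
      {w | OrbitMod Ω g n w.1 w.2 ∧ Bad Ω g n w.1 w.2})) ?_).trans ?_
  · intro z hz
    obtain ⟨g, hg, n, p, u, h1, h2, h3⟩ := hP z hz
    exact mem_iUnion₂.2 ⟨g, hg, mem_iUnion.2 ⟨n, (p, u), ⟨h1, h3⟩, h2⟩⟩
  · rw [dimH_bUnion hΓ]
    refine iSup₂_le fun g hg => ?_
    rw [dimH_iUnion]
    exact iSup_le fun n => bad_dim hd (hinv g hg) n

/-- **Focusing directions.** -/
theorem dim_dir (hd : 2 ≤ Module.finrank ℝ E) (Ω : Set E) (Γ : Set (E ≃ᵃⁱ[ℝ] E))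
    (hΓ : Γ.Countable) (hinv : ∀ g ∈ Γ, g ⁻¹' Ω = Ω) :
    dimH (FewDir Γ Ω) ≤ ((2 * Module.finrank ℝ E - 3 : ℕ) : ℝ≥0∞) := by
  refine all_dim hd Ω Γ hΓ hinv _ ?_
  rintro z ⟨g, hg, n, p, u, r, β, h1, h2, h3, h4⟩
  exact ⟨g, hg, n, p, u, h1, h2, Or.inl ⟨r, β, h3, h4⟩⟩

/-- **The total rank.** -/
theorem dim_rank (hd : 2 ≤ Module.finrank ℝ E) (Ω : Set E) (Γ : Set (E ≃ᵃⁱ[ℝ] E))
    (hΓ : Γ.Countable) (hinv : ∀ g ∈ Γ, g ⁻¹' Ω = Ω) :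
    dimH (LowRank Γ Ω) ≤ ((2 * Module.finrank ℝ E - 3 : ℕ) : ℝ≥0∞) := by
  refine all_dim hd Ω Γ hΓ hinv _ ?_
  rintro z ⟨g, hg, n, p, u, r, v, w, h1, h2, h3, h4, h5, h6⟩
  exact ⟨g, hg, n, p, u, h1, h2, Or.inr ⟨r, v, w, h3, h4, h5, h6⟩⟩

end

end Pool.Agent.T2H44.IV
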